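import Pool.Agent.Q130.SC.Glob

/-!
# Smooth families `id + η(t) H` of diffeomorphisms and their inverses
-/

set_option autoImplicit false

open Set Filter Topology
open scoped ContDiff

namespace Pool.Agent.Q130.SC

variable {E : Type*} [NormedAddCommGroup E] [NormedSpace ℝ E] [FiniteDimensional ℝ E]

/-- Smoothness of a family `id + η(t) H` of diffeomorphisms and of the family of the inverses. -/
theorem exists_fam (H : E → E) (hH : ContDiff ℝ ∞ H) {K : Set E} (hK : IsCompact K)
    (hoff : ∀ w, w ∉ K → H w = 0)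
    (hinj : ∀ s : ℝ, 0 ≤ s → s ≤ 1 → ∀ w u, u + s • fderiv ℝ H w u = 0 → u = 0)
    (η : ℝ → ℝ) (hη : ContDiff ℝ ∞ η) (hη0 : ∀ t, 0 ≤ η t) (hη1 : ∀ t, η t ≤ 1) :
    ∃ A : ℝ → (E ≃ E), (∀ t w, A t w = w + η t • H w) ∧
      ContDiff ℝ ∞ (fun p : ℝ × E => A p.1 p.2) ∧
      ContDiff ℝ ∞ (fun p : ℝ × E => (A p.1).symm p.2) := by
  have hcomplete : CompleteSpace E := FiniteDimensional.complete ℝ E
  have hHd : Differentiable ℝ H := hH.differentiable (by simp)
  have hder : ∀ s : ℝ, ∀ w, HasFDerivAt (fun w => w + s • H w)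
      (ContinuousLinearMap.id ℝ E + s • fderiv ℝ H w) w := fun s w =>
    (hasFDerivAt_id w).add ((hHd w).hasFDerivAt.const_smul s)
  have hbij : ∀ t, Function.Bijective (fun w => w + η t • H w) := fun t => by
    refine bijective_of_off _ hK (contDiff_id.add (hH.const_smul (η t))) (fun z hz => ?_)
      (fun z u hu => ?_)
    · rw [hoff z hz, smul_zero, add_zero]
    · rw [(hder (η t) z).fderiv] at hu
      exact hinj (η t) (hη0 t) (hη1 t) z u (by simpa using hu)
  set A : ℝ → (E ≃ E) := fun t => Equiv.ofBijective (fun w => w + η t • H w) (hbij t) with hA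
  have hAapp : ∀ t w, A t w = w + η t • H w := fun t w => rfl
  have hAs : ContDiff ℝ ∞ (fun p : ℝ × E => A p.1 p.2) := by
    have : (fun p : ℝ × E => A p.1 p.2) = fun p => p.2 + η p.1 • H p.2 := by
      ext1 p; exact hAapp _ _
    rw [this]
    exact contDiff_snd.add ((hη.comp contDiff_fst).smul (hH.comp contDiff_snd))
  refine ⟨A, hAapp, hAs, ?_⟩
  set P : ℝ × E ≃ ℝ × E :=
    { toFun := fun p => (p.1, A p.1 p.2)
      invFun := fun p => (p.1, (A p.1).symm p.2)
      left_inv := fun p => by simp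
      right_inv := fun p => by simp } with hP
  have hPs : ContDiff ℝ ∞ P := contDiff_fst.prodMk hAs
  have hPi : ContDiff ℝ ∞ P.symm := by
    refine contDiff_symm_of_equiv P hPs fun p => ?_
    have hPd : DifferentiableAt ℝ P p := (hPs.differentiable (by simp)) p
    have hd : DifferentiableAt ℝ (fun p : ℝ × E => A p.1 p.2) p :=
      (hAs.differentiable (by simp)) p
    obtain ⟨f', hf'⟩ := exists_equiv_of_injective (fderiv ℝ P p) (fun u hu => by
      have h1 : fderiv ℝ P p u = (u.1, fderiv ℝ (fun p : ℝ × E => A p.1 p.2) p u) := by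
        have : HasFDerivAt P ((ContinuousLinearMap.fst ℝ ℝ E).prod
            (fderiv ℝ (fun p : ℝ × E => A p.1 p.2) p)) p :=
          (hasFDerivAt_fst (p := p)).prodMk hd.hasFDerivAt
        rw [this.fderiv]; rfl
      rw [h1] at hu
      have h2 : u.1 = 0 := congrArg Prod.fst hu
      have h3 : fderiv ℝ (fun p : ℝ × E => A p.1 p.2) p u = 0 := congrArg Prod.snd hu
      have h4 : u = (0, u.2) := Prod.ext h2 rfl
      have h5 : fderiv ℝ (fun p : ℝ × E => A p.1 p.2) p (0, u.2) =
          u.2 + η p.1 • fderiv ℝ H p.2 u.2 := by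
        have e1 : HasFDerivAt (fun w : E => ((p.1, w) : ℝ × E))
            (ContinuousLinearMap.inr ℝ ℝ E) p.2 := hasFDerivAt_prodMk_right p.1 p.2
        have e2 : HasFDerivAt ((fun p : ℝ × E => A p.1 p.2) ∘ (fun w : E => ((p.1, w) :
            ℝ × E))) ((fderiv ℝ (fun p : ℝ × E => A p.1 p.2) p).comp
            (ContinuousLinearMap.inr ℝ ℝ E)) p.2 :=
          HasFDerivAt.comp (x := p.2) (hg := (by simpa using hd.hasFDerivAt)) (hf := e1)
        have e3 : ((fun p : ℝ × E => A p.1 p.2) ∘ (fun w : E => ((p.1, w) : ℝ × E))) =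
            fun w => w + η p.1 • H w := by ext1 w; exact hAapp _ _
        rw [e3] at e2
        have e5 := e2.unique (hder (η p.1) p.2)
        have e6 := congrArg (fun L : E →L[ℝ] E => L u.2) e5
        simpa using e6
      rw [h4, h5] at h3
      have h6 := hinj (η p.1) (hη0 _) (hη1 _) p.2 u.2 h3
      rw [h4, h6]; rfl)
    refine ⟨f', ?_⟩
    rw [hf']
    exact hPd.hasFDerivAt
  exact contDiff_snd.comp hPi

end Pool.Agent.Q130.SC
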