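import Pool.Agent.Q130.SC.Gen
import Pool.Agent.Q130.SC.Fam

/-!
# Generating functions of all linear types, and an eigenvalue criterion for isotopies
-/

set_option autoImplicit false

open Set Filter Topology
open scoped ContDiff

namespace Pool.Agent.Q130.SC

theorem omega_neg_left {n : ℕ} (u v : Sp n) : omega (-u) v = - omega u v := by
  have := omega_smul_left (-1) u v
  simpa using this

theorem omega_neg_right {n : ℕ} (u v : Sp n) : omega u (-v) = - omega u v := by
  have := omega_smul_right (-1) u v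
  simpa using this

theorem omega_sub_left {n : ℕ} (u u' v : Sp n) : omega (u - u') v = omega u v - omega u' v := by
  rw [sub_eq_add_neg, omega_add_left, omega_neg_left]; ring

theorem omega_sub_right {n : ℕ} (u v v' : Sp n) : omega u (v - v') = omega u v - omega u v' := by
  rw [sub_eq_add_neg, omega_add_right, omega_neg_right]; ring

theorem omega_nondeg {n : ℕ} (v : Sp n) (h : ∀ u, omega u v = 0) : v = 0 := by
  classical
  refine Prod.ext ?_ ?_
  · ext i
    have h1 := h (0, EuclideanSpace.single i 1)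
    rw [omega, Finset.sum_eq_single i] at h1
    · simpa using h1
    · intro j _ hj
      simp [hj]
    · intro hi; exact absurd (Finset.mem_univ i) hi
  · ext i
    have h1 := h (EuclideanSpace.single i 1, 0)
    rw [omega, Finset.sum_eq_single i] at h1
    · simpa using h1
    · intro j _ hj
      simp [hj]
    · intro hi; exact absurd (Finset.mem_univ i) hi

/-- Let `P` be an endomorphism with `P + P^ω = 1`, and `θ` a symplectic diffeomorphism equal to the
identity off `K` such that `P (dθ - 1)` has no real eigenvalue `≤ -1`. Then `θ` is the endpoint of a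
smooth family of symplectic diffeomorphisms equal to the identity off `K`. -/
theorem cayley_isotopy {n : ℕ} {K : Set (Sp n)} (hK : IsCompact K) (P : Sp n →L[ℝ] Sp n)
    (hP : ∀ u v, omega (P u) v + omega u (P v) = omega u v)
    (θ : Sp n → Sp n) (hθ : ContDiff ℝ ∞ θ)
    (hsym : ∀ z u v, omega (fderiv ℝ θ z u) (fderiv ℝ θ z v) = omega u v)
    (hoff : ∀ z, z ∉ K → θ z = z)
    (hgood : ∀ z u, ∀ μ : ℝ, μ ≤ -1 → P (fderiv ℝ θ z u - u) = μ • u → u = 0) :
    ∃ Φ : ℝ → (Sp n ≃ Sp n),
      ContDiff ℝ ∞ (fun p : ℝ × Sp n => Φ p.1 p.2) ∧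
      ContDiff ℝ ∞ (fun p : ℝ × Sp n => (Φ p.1).symm p.2) ∧
      (∀ z, Φ 0 z = z) ∧ (∀ z, Φ 1 z = θ z) ∧
      (∀ t z, z ∉ K → Φ t z = z) ∧
      (∀ t z u v, omega (fderiv ℝ (Φ t) z u) (fderiv ℝ (Φ t) z v) = omega u v) := by
  classical
  have hθd : Differentiable ℝ θ := hθ.differentiable (by simp)
  set δ : Sp n → Sp n := fun z => θ z - z with hδ
  have hδs : ContDiff ℝ ∞ δ := hθ.sub contDiff_id
  have hδd : ∀ z u, fderiv ℝ δ z u = fderiv ℝ θ z u - u := fun z u => by
    have h1 : fderiv ℝ δ z = fderiv ℝ θ z - ContinuousLinearMap.id ℝ (Sp n) :=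
      ((hθd z).hasFDerivAt.sub (hasFDerivAt_id z)).fderiv
    rw [h1]; rfl
  -- the map `m z = z + P (θ z - z)`
  set m : Sp n → Sp n := fun z => z + P (δ z) with hm
  have hms : ContDiff ℝ ∞ m := contDiff_id.add (P.contDiff.comp hδs)
  have hmd : ∀ z u, fderiv ℝ m z u = u + P (fderiv ℝ θ z u - u) := fun z u => by
    have h1 : HasFDerivAt m (ContinuousLinearMap.id ℝ (Sp n) + P.comp (fderiv ℝ δ z)) z :=
      (hasFDerivAt_id z).add (P.hasFDerivAt.comp z ((hδs.differentiable (by simp)) z).hasFDerivAt)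
    rw [h1.fderiv]
    simp [hδd]
  have hmoff : ∀ z, z ∉ K → m z = z := fun z hz => by
    simp [hm, hδ, hoff z hz]
  have hminj : ∀ z u, fderiv ℝ m z u = 0 → u = 0 := fun z u hu => by
    rw [hmd] at hu
    refine hgood z u (-1) le_rfl ?_
    rw [neg_one_smul]
    exact eq_neg_of_add_eq_zero_right hu
  set M : Sp n ≃ Sp n := Equiv.ofBijective m (bijective_of_off m hK hms hmoff hminj) with hM
  have hMapp : ∀ z, M z = m z := fun z => rfl
  have hMs : ContDiff ℝ ∞ M := hms
  have hMinv : ContDiff ℝ ∞ M.symm := by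
    refine contDiff_symm_of_equiv M hMs fun z => ?_
    obtain ⟨f', hf'⟩ := exists_equiv_of_injective (fderiv ℝ m z) (hminj z)
    refine ⟨f', ?_⟩
    rw [hf']
    exact ((hms.differentiable (by simp)) z).hasFDerivAt
  set C : Sp n → Sp n := fun w => M.symm w with hC
  have hCs : ContDiff ℝ ∞ C := hMinv
  have hCd : Differentiable ℝ C := hCs.differentiable (by simp)
  have hmC : ∀ w, m (C w) = w := fun w => M.apply_symm_apply w
  have hCoff : ∀ w, w ∉ K → C w = w := fun w hw => by
    have : M w = w := hmoff w hw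
    rw [hC]; simp only; rw [Equiv.symm_apply_eq, this]
  set V : Sp n → Sp n := fun w => δ (C w) with hV
  have hVs : ContDiff ℝ ∞ V := hδs.comp hCs
  have hVd : Differentiable ℝ V := hVs.differentiable (by simp)
  have hVoff : ∀ w, w ∉ K → V w = 0 := fun w hw => by
    simp [hV, hδ, hCoff w hw, hoff w hw]
  have hCV : ∀ w, C w = w - P (V w) := fun w => by
    have := hmC w
    rw [hm] at this
    simp only at this
    rw [eq_sub_iff_add_eq]
    exact this
  have hθC : ∀ w, θ (C w) = w + (V w - P (V w)) := fun w => by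
    have h1 : θ (C w) = C w + V w := by simp [hV, hδ]
    rw [h1, hCV]; abel
  -- the derivative of `V`
  have hmda : ∀ w u, fderiv ℝ m (C w) (fderiv ℝ C w u) = u := fun w u => by
    have h1 : fderiv ℝ (m ∘ C) w = (fderiv ℝ m (C w)).comp (fderiv ℝ C w) :=
      fderiv_comp w ((hms.differentiable (by simp)) _) (hCd w)
    have h2 : m ∘ C = id := by ext1 w; exact hmC w
    rw [h2, fderiv_id] at h1
    have h3 := congrArg (fun L : Sp n →L[ℝ] Sp n => L u) h1
    simpa using h3.symm
  have hBa : ∀ w u, fderiv ℝ V w u =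
      fderiv ℝ θ (C w) (fderiv ℝ C w u) - fderiv ℝ C w u := fun w u => by
    have h1 : fderiv ℝ V w = (fderiv ℝ δ (C w)).comp (fderiv ℝ C w) :=
      fderiv_comp w ((hδs.differentiable (by simp)) _) (hCd w)
    rw [h1, ContinuousLinearMap.comp_apply, hδd]
  have hua : ∀ w u, fderiv ℝ C w u + P (fderiv ℝ V w u) = u := fun w u => by
    rw [hBa, ← hmd, hmda]
  -- closedness
  have hclosed : ∀ w u v, omega (fderiv ℝ V w u) v + omega u (fderiv ℝ V w v) = 0 := by
    intro w u v
    have h1 := hsym (C w) (fderiv ℝ C w u) (fderiv ℝ C w v)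
    have e1 : ∀ u, fderiv ℝ θ (C w) (fderiv ℝ C w u) = u - P (fderiv ℝ V w u) +
        fderiv ℝ V w u := fun u => by
      have h2 := hBa w u
      have h3 := hua w u
      rw [eq_sub_iff_add_eq] at h2
      rw [← h2, ← eq_sub_iff_add_eq.2 h3]; abel
    have e2 : ∀ u, fderiv ℝ C w u = u - P (fderiv ℝ V w u) := fun u =>
      eq_sub_iff_add_eq.2 (hua w u)
    rw [e1, e1, e2, e2] at h1
    have h4 := hP (fderiv ℝ V w u) (fderiv ℝ V w v)
    simp only [omega_add_left, omega_add_right, omega_sub_left, omega_sub_right] at h1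
    linarith
  -- injectivity of `1 - s P B`
  have hinj1 : ∀ s : ℝ, 0 ≤ s → s ≤ 1 → ∀ w u, u - s • P (fderiv ℝ V w u) = 0 → u = 0 := by
    intro s hs0 hs1 w u hu
    set a := fderiv ℝ C w u with ha
    have h1 : a + (1 - s) • P (fderiv ℝ θ (C w) a - a) = 0 := by
      rw [ha, ← hBa, sub_smul, one_smul, ← hu]
      nth_rewrite 4 [← hua w u]
      abel
    have ha0 : a = 0 := by
      rcases eq_or_lt_of_le hs1 with h2 | h2
      · rw [h2, sub_self, zero_smul, add_zero] at h1
        exact h1
      · have h3 : 0 < 1 - s := by linarith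
        refine hgood (C w) a (-(1 - s)⁻¹) ?_ ?_
        · have : 1 ≤ (1 - s)⁻¹ := by
            rw [one_le_inv₀ h3]; linarith
          linarith
        · have h4 : (1 - s)⁻¹ • (a + (1 - s) • P (fderiv ℝ θ (C w) a - a)) = 0 := by
            rw [h1, smul_zero]
          rw [smul_add, smul_smul, inv_mul_cancel₀ h3.ne', one_smul] at h4
          rw [neg_smul]
          exact eq_neg_of_add_eq_zero_right h4
    rw [← hmda w u, ← ha, ha0, map_zero]
  -- injectivity of `1 + s (1 - P) B`
  have hinj2 : ∀ s : ℝ, 0 ≤ s → s ≤ 1 → ∀ w u,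
      u + s • (fderiv ℝ V w u - P (fderiv ℝ V w u)) = 0 → u = 0 := by
    intro s hs0 hs1 w u hu
    set b := fderiv ℝ V w u with hb
    have hb0 : b = 0 := by
      refine omega_nondeg b fun v' => ?_
      obtain ⟨f', hf'⟩ := exists_equiv_of_injective
        (ContinuousLinearMap.id ℝ (Sp n) - s • P.comp (fderiv ℝ V w)) (fun u hu =>
          hinj1 s hs0 hs1 w u (by simpa using hu))
      obtain ⟨v, hv⟩ := f'.surjective v'
      have hv' : v - s • P (fderiv ℝ V w v) = v' := by
        rw [← hv]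
        have := congrArg (fun L : Sp n →L[ℝ] Sp n => L v) hf'
        simpa using this.symm
      rw [← hv', omega_sub_left, omega_smul_left]
      have h1 := hP (fderiv ℝ V w v) b
      have h2 := hclosed w v (b - P b)
      have h3 : b = - (s • fderiv ℝ V w (b - P b)) := by
        have : u = - (s • (b - P b)) := eq_neg_of_add_eq_zero_left hu
        have h4 : b = fderiv ℝ V w (- (s • (b - P b))) := by rw [← this]
        exact h4.trans (by rw [map_neg, map_smul])
      have h5 : omega v b = - (s * omega v (fderiv ℝ V w (b - P b))) := by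
        nth_rewrite 1 [h3]
        rw [omega_neg_right, omega_smul_right]
      rw [omega_sub_right] at h2
      have h6 : omega v (fderiv ℝ V w (b - P b)) = - (omega (P (fderiv ℝ V w v)) b) := by
        linarith
      rw [h5, h6]; ring
    rw [hb0, map_zero, sub_zero, smul_zero, add_zero] at hu
    exact hu
  -- the time function
  set η : ℝ → ℝ := fun t => (1 - Real.cos (Real.pi * t)) / 2 with hη
  have hηs : ContDiff ℝ ∞ η := by
    rw [hη]
    exact ((contDiff_const.sub (Real.contDiff_cos.comp (contDiff_const.mul contDiff_id))).div_const 2)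
  have hη0 : η 0 = 0 := by simp [hη]
  have hη1 : η 1 = 1 := by simp [hη]
  have hηb0 : ∀ t, 0 ≤ η t := fun t => by
    have h1 := Real.cos_le_one (Real.pi * t)
    simp only [hη]; linarith
  have hηb1 : ∀ t, η t ≤ 1 := fun t => by
    have h1 := Real.neg_one_le_cos (Real.pi * t)
    simp only [hη]; linarith
  -- the two families
  set F : Sp n → Sp n := fun w => V w - P (V w) with hF
  set G : Sp n → Sp n := fun w => - P (V w) with hG
  have hFs : ContDiff ℝ ∞ F := hVs.sub (P.contDiff.comp hVs)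
  have hGs : ContDiff ℝ ∞ G := (P.contDiff.comp hVs).neg
  have hFd : ∀ w u, fderiv ℝ F w u = fderiv ℝ V w u - P (fderiv ℝ V w u) := fun w u => by
    have h1 : HasFDerivAt F (fderiv ℝ V w - P.comp (fderiv ℝ V w)) w :=
      (hVd w).hasFDerivAt.sub (P.hasFDerivAt.comp w (hVd w).hasFDerivAt)
    rw [h1.fderiv]; rfl
  have hGd : ∀ w u, fderiv ℝ G w u = - P (fderiv ℝ V w u) := fun w u => by
    have h1 : HasFDerivAt G (-(P.comp (fderiv ℝ V w))) w :=
      (P.hasFDerivAt.comp w (hVd w).hasFDerivAt).neg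
    rw [h1.fderiv]; rfl
  obtain ⟨A, hAapp, hAs, hAis⟩ := exists_fam F hFs hK
    (fun w hw => by simp [hF, hVoff w hw])
    (fun s hs0 hs1 w u hu => hinj2 s hs0 hs1 w u (by rw [hFd] at hu; exact hu)) η hηs hηb0 hηb1
  obtain ⟨Bt, hBapp, hBs, hBis⟩ := exists_fam G hGs hK
    (fun w hw => by simp [hG, hVoff w hw])
    (fun s hs0 hs1 w u hu => hinj1 s hs0 hs1 w u (by
      rw [hGd, smul_neg, ← sub_eq_add_neg] at hu; exact hu)) η hηs hηb0 hηb1
  have hAoff : ∀ t w, w ∉ K → A t w = w := fun t w hw => by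
    rw [hAapp]; simp [hF, hVoff w hw]
  have hBoff : ∀ t w, w ∉ K → Bt t w = w := fun t w hw => by
    rw [hBapp]; simp [hG, hVoff w hw]
  have hBioff : ∀ t w, w ∉ K → (Bt t).symm w = w := fun t w hw => by
    rw [Equiv.symm_apply_eq, hBoff t w hw]
  have hB1 : ∀ w, Bt 1 w = C w := fun w => by
    rw [hBapp, hη1, one_smul, hCV, sub_eq_add_neg]
  have hA1 : ∀ w, A 1 w = θ (C w) := fun w => by
    rw [hAapp, hη1, one_smul, hθC]
  have hAd : ∀ t w u, fderiv ℝ (A t) w u = u + η t • (fderiv ℝ V w u - P (fderiv ℝ V w u)) := by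
    intro t w u
    have h2 : HasFDerivAt (A t) (ContinuousLinearMap.id ℝ (Sp n) + η t • fderiv ℝ F w) w :=
      ((hasFDerivAt_id w).add (((hFs.differentiable (by simp)) w).hasFDerivAt.const_smul
        (η t))).congr_of_eventuallyEq (Eventually.of_forall fun w => hAapp t w)
    rw [h2.fderiv, ← hFd]; rfl
  have hBd : ∀ t w u, fderiv ℝ (Bt t) w u = u - η t • P (fderiv ℝ V w u) := by
    intro t w u
    have h2 : HasFDerivAt (Bt t) (ContinuousLinearMap.id ℝ (Sp n) + η t • fderiv ℝ G w) w :=
      ((hasFDerivAt_id w).add (((hGs.differentiable (by simp)) w).hasFDerivAt.const_smul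
        (η t))).congr_of_eventuallyEq (Eventually.of_forall fun w => hBapp t w)
    rw [h2.fderiv, sub_eq_add_neg, ← smul_neg, ← hGd]; rfl
  have hAB : ∀ t w u v, omega (fderiv ℝ (A t) w u) (fderiv ℝ (A t) w v) =
      omega (fderiv ℝ (Bt t) w u) (fderiv ℝ (Bt t) w v) := by
    intro t w u v
    have h4 := hP (fderiv ℝ V w u) (fderiv ℝ V w v)
    have h5 := hclosed w u v
    rw [hAd, hAd, hBd, hBd]
    simp only [omega_add_left, omega_add_right, omega_sub_left, omega_sub_right, omega_smul_left,
      omega_smul_right]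
    linear_combination (η t) * h5 - (η t) ^ 2 * h4
  refine ⟨fun t => (Bt t).symm.trans (A t), ?_, ?_, ?_, ?_, ?_, ?_⟩
  · have : (fun p : ℝ × Sp n => ((Bt p.1).symm.trans (A p.1)) p.2) =
        (fun p : ℝ × Sp n => A p.1 p.2) ∘ (fun p : ℝ × Sp n => (p.1, (Bt p.1).symm p.2)) := rfl
    rw [this]
    exact hAs.comp (contDiff_fst.prodMk hBis)
  · have : (fun p : ℝ × Sp n => ((Bt p.1).symm.trans (A p.1)).symm p.2) =
        (fun p : ℝ × Sp n => Bt p.1 p.2) ∘ (fun p : ℝ × Sp n => (p.1, (A p.1).symm p.2)) := rfl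
    rw [this]
    exact hBs.comp (contDiff_fst.prodMk hAis)
  · intro z
    have h1 : (Bt 0).symm z = z := by
      rw [Equiv.symm_apply_eq, hBapp, hη0]; simp
    change A 0 ((Bt 0).symm z) = z
    rw [h1, hAapp, hη0]; simp
  · intro z
    change A 1 ((Bt 1).symm z) = θ z
    rw [hA1, ← hB1, Equiv.apply_symm_apply]
  · intro t z hz
    change A t ((Bt t).symm z) = z
    rw [hBioff t z hz, hAoff t z hz]
  · intro t z u v
    have hBt1 : Differentiable ℝ (Bt t) := fun w => by
      have := (hBs.comp ((contDiff_const (c := t)).prodMk contDiff_id)).differentiable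
        (by simp : (∞ : WithTop ℕ∞) ≠ 0)
      exact this w
    have hBt2 : Differentiable ℝ (Bt t).symm := fun w => by
      have := (hBis.comp ((contDiff_const (c := t)).prodMk contDiff_id)).differentiable
        (by simp : (∞ : WithTop ℕ∞) ≠ 0)
      exact this w
    have hAt1 : Differentiable ℝ (A t) := fun w => by
      have := (hAs.comp ((contDiff_const (c := t)).prodMk contDiff_id)).differentiable
        (by simp : (∞ : WithTop ℕ∞) ≠ 0)
      exact this w
    have h1 : fderiv ℝ ((Bt t).symm.trans (A t)) z =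
        (fderiv ℝ (A t) ((Bt t).symm z)).comp (fderiv ℝ (Bt t).symm z) :=
      fderiv_comp z (hAt1 _) (hBt2 z)
    have h2 : ∀ u, fderiv ℝ (Bt t) ((Bt t).symm z) (fderiv ℝ (Bt t).symm z u) = u := by
      intro u
      have h3 : fderiv ℝ ((Bt t) ∘ (Bt t).symm) z =
          (fderiv ℝ (Bt t) ((Bt t).symm z)).comp (fderiv ℝ (Bt t).symm z) :=
        fderiv_comp z (hBt1 _) (hBt2 z)
      have h4 : ((Bt t) ∘ (Bt t).symm : Sp n → Sp n) = id := by ext1 w; simp
      rw [h4, fderiv_id] at h3
      have h5 := congrArg (fun L : Sp n →L[ℝ] Sp n => L u) h3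
      simpa using h5.symm
    rw [h1]
    simp only [ContinuousLinearMap.comp_apply]
    rw [hAB, h2, h2]

end Pool.Agent.Q130.SC
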