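import Mathlib

/-!
# Smooth bijections with invertible derivative, and perturbations of the identity
-/

set_option autoImplicit false

open Set Filter Topology
open scoped ContDiff NNReal

namespace Pool.Agent.Q130.SC

variable {E : Type*} [NormedAddCommGroup E] [NormedSpace ℝ E]

/-- The inverse of a smooth bijection whose derivative is invertible everywhere is smooth. -/
theorem contDiff_symm_of_equiv [CompleteSpace E] (e : E ≃ E) (h : ContDiff ℝ ∞ e)
    (hd : ∀ x, ∃ f' : E ≃L[ℝ] E, HasFDerivAt e (f' : E →L[ℝ] E) x) : ContDiff ℝ ∞ e.symm := by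
  rw [contDiff_iff_contDiffAt]
  intro y
  obtain ⟨f', hf'⟩ := hd (e.symm y)
  have hc : ContDiffAt ℝ ∞ e (e.symm y) := h.contDiffAt
  have hn : (∞ : WithTop ℕ∞) ≠ 0 := by simp
  have h1 : ContDiffAt ℝ ∞ (hc.localInverse hf' hn) (e (e.symm y)) := hc.to_localInverse hf' hn
  have hs : HasStrictFDerivAt e (f' : E →L[ℝ] E) (e.symm y) := hc.hasStrictFDerivAt' hf' hn
  have h2 : ∀ᶠ z in 𝓝 (e (e.symm y)), e (hs.localInverse e f' (e.symm y) z) = z :=
    hs.eventually_right_inverse
  rw [e.apply_symm_apply] at h1 h2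
  refine h1.congr_of_eventuallyEq ?_
  filter_upwards [h2] with z hz
  have h3 : e.symm z = hs.localInverse e f' (e.symm y) z := by
    rw [Equiv.symm_apply_eq]; exact hz.symm
  rw [h3]
  rfl

/-- An injective endomorphism of a finite dimensional space is invertible. -/
theorem exists_equiv_of_injective [FiniteDimensional ℝ E] (T : E →L[ℝ] E)
    (h : ∀ u, T u = 0 → u = 0) : ∃ f' : E ≃L[ℝ] E, (f' : E →L[ℝ] E) = T := by
  have hinj : Function.Injective (T : E →ₗ[ℝ] E) := by
    rw [← LinearMap.ker_eq_bot, LinearMap.ker_eq_bot']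
    exact h
  refine ⟨(LinearEquiv.ofInjectiveEndo (T : E →ₗ[ℝ] E) hinj).toContinuousLinearEquiv, ?_⟩
  ext u
  simp

/-- A Lipschitz perturbation of the identity is bijective. -/
theorem bijective_id_add [CompleteSpace E] {h : E → E} {c : ℝ≥0} (hc : c < 1)
    (hh : LipschitzWith c h) : Function.Bijective (fun x => x + h x) := by
  have ha : ApproximatesLinearOn (fun x => x + h x)
      ((ContinuousLinearEquiv.refl ℝ E : E ≃L[ℝ] E) : E →L[ℝ] E) univ c := by
    intro x _ y _
    have h1 : (x + h x - (y + h y) - ((ContinuousLinearEquiv.refl ℝ E : E ≃L[ℝ] E) : E →L[ℝ] E)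
        (x - y)) = h x - h y := by
      simp; abel
    rw [h1]
    have := hh.dist_le_mul x y
    rwa [dist_eq_norm, dist_eq_norm] at this
  have hN : Subsingleton E ∨ c < ‖((ContinuousLinearEquiv.refl ℝ E : E ≃L[ℝ] E).symm :
      E →L[ℝ] E)‖₊⁻¹ := by
    rcases subsingleton_or_nontrivial E with h0 | h0
    · exact Or.inl h0
    · right
      have : ‖((ContinuousLinearEquiv.refl ℝ E : E ≃L[ℝ] E).symm : E →L[ℝ] E)‖₊ = 1 := by
        rw [ContinuousLinearEquiv.refl_symm]
        exact NNReal.eq (by simp)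
      rw [this]
      simpa using hc
  have hb := (ha.toHomeomorph _ hN).bijective
  exact hb

end Pool.Agent.Q130.SC
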