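import Pool.Agent.Q130.SC.Diffeo

/-!
# The generating function isotopy for symplectic maps close to the identity
-/

set_option autoImplicit false

open Set Filter Topology
open scoped ContDiff NNReal

namespace Pool.Agent.Q130.SC

/-- `ℝ^{2n}` -/
abbrev Sp (n : ℕ) : Type := EuclideanSpace ℝ (Fin n) × EuclideanSpace ℝ (Fin n)

/-- the standard symplectic form `∑ dx_i ∧ dy_i` -/
def omega {n : ℕ} (u v : Sp n) : ℝ := ∑ i, (u.1 i * v.2 i - u.2 i * v.1 i)

theorem omega_add_left {n : ℕ} (u u' v : Sp n) : omega (u + u') v = omega u v + omega u' v := by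
  simp only [omega, ← Finset.sum_add_distrib]
  refine Finset.sum_congr rfl fun i _ => ?_
  simp; ring

theorem omega_add_right {n : ℕ} (u v v' : Sp n) : omega u (v + v') = omega u v + omega u v' := by
  simp only [omega, ← Finset.sum_add_distrib]
  refine Finset.sum_congr rfl fun i _ => ?_
  simp; ring

theorem omega_smul_left {n : ℕ} (c : ℝ) (u v : Sp n) : omega (c • u) v = c * omega u v := by
  simp only [omega, Finset.mul_sum]
  refine Finset.sum_congr rfl fun i _ => ?_
  simp; ring

theorem omega_smul_right {n : ℕ} (c : ℝ) (u v : Sp n) : omega u (c • v) = c * omega u v := by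
  simp only [omega, Finset.mul_sum]
  refine Finset.sum_congr rfl fun i _ => ?_
  simp; ring

theorem omega_fst_fst {n : ℕ} (a b : EuclideanSpace ℝ (Fin n)) :
    omega ((a, 0) : Sp n) (b, 0) = 0 := by simp [omega]

theorem omega_snd_snd {n : ℕ} (a b : EuclideanSpace ℝ (Fin n)) :
    omega ((0, a) : Sp n) (0, b) = 0 := by simp [omega]

/-- smooth family of diffeomorphisms joining the identity to `θ`; a symplectic diffeomorphism `θ`
with `‖dθ - 1‖ ≤ 1/4`, equal to the identity off `K`, is the endpoint of a smooth family of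
symplectic diffeomorphisms equal to the identity off `K`. -/
theorem gen_isotopy {n : ℕ} (K : Set (Sp n)) (θ : Sp n ≃ Sp n) (hθ : ContDiff ℝ ∞ θ)
    (hsym : ∀ z u v, omega (fderiv ℝ θ z u) (fderiv ℝ θ z v) = omega u v)
    (hK : ∀ z, z ∉ K → θ z = z)
    (hsmall : ∀ z, ‖fderiv ℝ θ z - ContinuousLinearMap.id ℝ (Sp n)‖ ≤ 1 / 4) :
    ∃ Φ : ℝ → (Sp n ≃ Sp n),
      ContDiff ℝ ∞ (fun p : ℝ × Sp n => Φ p.1 p.2) ∧
      ContDiff ℝ ∞ (fun p : ℝ × Sp n => (Φ p.1).symm p.2) ∧
      (∀ z, Φ 0 z = z) ∧ (∀ z, Φ 1 z = θ z) ∧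
      (∀ t z, z ∉ K → Φ t z = z) ∧
      (∀ t z u v, omega (fderiv ℝ (Φ t) z u) (fderiv ℝ (Φ t) z v) = omega u v) := by
  classical
  -- `θ - id` is `1/4`-Lipschitz
  have hθd : Differentiable ℝ θ := hθ.differentiable (by simp)
  set δ : Sp n → Sp n := fun z => θ z - z with hδ
  have hδs : ContDiff ℝ ∞ δ := hθ.sub contDiff_id
  have hδL : LipschitzWith (1 / 4 : ℝ≥0) δ := by
    refine lipschitzWith_of_nnnorm_fderiv_le (hδs.differentiable (by simp)) fun z => ?_
    have h1 : fderiv ℝ δ z = fderiv ℝ θ z - ContinuousLinearMap.id ℝ (Sp n) := by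
      exact ((hθd z).hasFDerivAt.sub (hasFDerivAt_id z)).fderiv
    rw [h1]
    have := hsmall z
    rw [← NNReal.coe_le_coe]
    simpa using this
  -- the map `B (x, y) = (x, Y (x, y))`
  set hB : Sp n → Sp n := fun z => (0, (δ z).2) with hhB
  have hBL : LipschitzWith (1 / 4 : ℝ≥0) hB := by
    refine LipschitzWith.of_dist_le_mul fun x y => ?_
    have h1 := hδL.dist_le_mul x y
    refine le_trans ?_ h1
    rw [dist_eq_norm, dist_eq_norm, hhB]
    simp only [Prod.mk_sub_mk, sub_zero]
    rw [Prod.norm_mk, norm_zero]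
    exact max_le (norm_nonneg _) (norm_snd_le (δ x - δ y))
  have hBs : ContDiff ℝ ∞ hB := contDiff_const.prodMk (contDiff_snd.comp hδs)
  have hq : (1 / 4 : ℝ≥0) < 1 := by
    rw [← NNReal.coe_lt_coe]; norm_num
  set B : Sp n ≃ Sp n := Equiv.ofBijective (fun z => z + hB z) (bijective_id_add hq hBL) with hBdef
  have hBapp : ∀ z, B z = z + hB z := fun z => rfl
  have hBfst : ∀ z, (B z).1 = z.1 := fun z => by rw [hBapp]; simp [hhB]
  have hBsnd : ∀ z, (B z).2 = (θ z).2 := fun z => by rw [hBapp]; simp [hhB, hδ]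
  have hBsmooth : ContDiff ℝ ∞ B := contDiff_id.add hBs
  -- derivative of `id + (Lipschitz constant < 1)` is invertible
  have key : ∀ (h : Sp n → Sp n) (c : ℝ≥0), c < 1 → LipschitzWith c h → Differentiable ℝ h →
      ∀ z u, u + fderiv ℝ h z u = 0 → u = 0 := by
    intro h c hc hL hd z u hu
    have h1 : ‖fderiv ℝ h z‖ ≤ c := norm_fderiv_le_of_lipschitz ℝ hL
    have h2 : ‖u‖ ≤ c * ‖u‖ := by
      have h3 : u = - fderiv ℝ h z u := eq_neg_of_add_eq_zero_left hu
      calc ‖u‖ = ‖fderiv ℝ h z u‖ := by rw [← norm_neg (fderiv ℝ h z u), ← h3]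
        _ ≤ ‖fderiv ℝ h z‖ * ‖u‖ := ContinuousLinearMap.le_opNorm _ _
        _ ≤ c * ‖u‖ := by gcongr
    have h4 : (c : ℝ) < 1 := by exact_mod_cast hc
    by_contra hne
    have : 0 < ‖u‖ := norm_pos_iff.2 hne
    nlinarith
  have hBinv : ContDiff ℝ ∞ B.symm := by
    refine contDiff_symm_of_equiv B hBsmooth fun z => ?_
    have hd := hBs.differentiable (by simp)
    obtain ⟨f', hf'⟩ := exists_equiv_of_injective (ContinuousLinearMap.id ℝ (Sp n) + fderiv ℝ hB z)
      (fun u hu => key hB _ hq hBL hd z u (by simpa using hu))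
    refine ⟨f', ?_⟩
    rw [hf']
    exact (hasFDerivAt_id z).add (hd z).hasFDerivAt
  -- the inverse `C`
  set C : Sp n → Sp n := fun w => B.symm w with hC
  have hBinv : ContDiff ℝ ∞ C := hBinv
  have hCfst : ∀ w, (C w).1 = w.1 := fun w => by
    have := hBfst (B.symm w)
    rw [B.apply_symm_apply] at this
    exact this.symm
  have hCsnd : ∀ w, (θ (C w)).2 = w.2 := fun w => by
    have := hBsnd (B.symm w)
    rw [B.apply_symm_apply] at this
    exact this.symm
  have hCL : LipschitzWith (4 / 3 : ℝ≥0) C := by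
    refine LipschitzWith.of_dist_le_mul fun x y => ?_
    have h1 := hBL.dist_le_mul (C x) (C y)
    rw [dist_eq_norm, dist_eq_norm] at h1 ⊢
    have h2 : x - y = (C x - C y) + (hB (C x) - hB (C y)) := by
      have e1 : C x + hB (C x) = x := B.apply_symm_apply x
      have e2 : C y + hB (C y) = y := B.apply_symm_apply y
      nth_rewrite 1 [← e1]
      nth_rewrite 1 [← e2]
      abel
    have h3 : ‖C x - C y‖ ≤ ‖x - y‖ + ‖hB (C x) - hB (C y)‖ := by
      have : C x - C y = (x - y) - (hB (C x) - hB (C y)) := by rw [h2]; abel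
      rw [this]; exact norm_sub_le _ _
    have h4 : ((1 / 4 : ℝ≥0) : ℝ) = 1 / 4 := by norm_num
    have h5 : ((4 / 3 : ℝ≥0) : ℝ) = 4 / 3 := by norm_num
    rw [h4] at h1
    rw [h5]
    linarith
  -- the two components of the closed one-form
  set f : Sp n → EuclideanSpace ℝ (Fin n) := fun w => (δ (C w)).1 with hf
  set g : Sp n → EuclideanSpace ℝ (Fin n) := fun w => -(δ (C w)).2 with hg
  have hδC : LipschitzWith (1 / 3 : ℝ≥0) (δ ∘ C) := by
    have h := hδL.comp hCL
    have e : (1 / 4 : ℝ≥0) * (4 / 3) = 1 / 3 := by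
      rw [← NNReal.coe_inj]; norm_num
    rwa [e] at h
  have hfs : ContDiff ℝ ∞ f := contDiff_fst.comp (hδs.comp hBinv)
  have hgs : ContDiff ℝ ∞ g := (contDiff_snd.comp (hδs.comp hBinv)).neg
  set F : Sp n → Sp n := fun w => (f w, 0) with hF
  set G : Sp n → Sp n := fun w => (0, g w) with hG
  have hFs : ContDiff ℝ ∞ F := hfs.prodMk contDiff_const
  have hGs : ContDiff ℝ ∞ G := contDiff_const.prodMk hgs
  have hFL : LipschitzWith (1 / 3 : ℝ≥0) F := by
    refine LipschitzWith.of_dist_le_mul fun x y => ?_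
    refine le_trans ?_ (hδC.dist_le_mul x y)
    rw [dist_eq_norm, dist_eq_norm, hF]
    simp only [Prod.mk_sub_mk, sub_zero]
    rw [Prod.norm_mk, norm_zero]
    exact max_le (norm_fst_le (δ (C x) - δ (C y))) (norm_nonneg _)
  have hGL : LipschitzWith (1 / 3 : ℝ≥0) G := by
    refine LipschitzWith.of_dist_le_mul fun x y => ?_
    refine le_trans ?_ (hδC.dist_le_mul x y)
    rw [dist_eq_norm, dist_eq_norm, hG]
    simp only [Prod.mk_sub_mk, sub_zero]
    rw [Prod.norm_mk, norm_zero]
    refine max_le (norm_nonneg _) ?_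
    have : g x - g y = -(δ (C x) - δ (C y)).2 := by simp [hg]; abel
    rw [this, norm_neg]
    exact norm_snd_le (δ (C x) - δ (C y))
  -- the time function
  set η : ℝ → ℝ := fun t => (1 - Real.cos (Real.pi * t)) / 2 with hη
  have hηs : ContDiff ℝ ∞ η := by
    rw [hη]
    exact ((contDiff_const.sub (Real.contDiff_cos.comp (contDiff_const.mul contDiff_id))).div_const 2)
  have hη0 : η 0 = 0 := by simp [hη]
  have hη1 : η 1 = 1 := by simp [hη]
  have hηb : ∀ t, |η t| ≤ 1 := fun t => by
    rw [hη, abs_le]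
    have h1 := Real.cos_le_one (Real.pi * t)
    have h2 := Real.neg_one_le_cos (Real.pi * t)
    constructor <;> simp only <;> linarith
  have hthird : (1 / 3 : ℝ≥0) < 1 := by
    rw [← NNReal.coe_lt_coe]; norm_num
  have hscale : ∀ (H : Sp n → Sp n), LipschitzWith (1 / 3 : ℝ≥0) H → ∀ t,
      LipschitzWith (1 / 3 : ℝ≥0) (fun w => η t • H w) := by
    intro H hH t
    refine LipschitzWith.of_dist_le_mul fun x y => ?_
    refine le_trans ?_ (hH.dist_le_mul x y)
    rw [dist_eq_norm, dist_eq_norm, ← smul_sub, norm_smul, Real.norm_eq_abs]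
    have := hηb t
    have := norm_nonneg (H x - H y)
    nlinarith
  -- smoothness of families `id + η(t) H` and of their inverses
  have fam : ∀ (H : Sp n → Sp n), LipschitzWith (1 / 3 : ℝ≥0) H → ContDiff ℝ ∞ H →
      ∃ A : ℝ → (Sp n ≃ Sp n), (∀ t w, A t w = w + η t • H w) ∧
        ContDiff ℝ ∞ (fun p : ℝ × Sp n => A p.1 p.2) ∧
        ContDiff ℝ ∞ (fun p : ℝ × Sp n => (A p.1).symm p.2) := by
    intro H hH hHs
    set A : ℝ → (Sp n ≃ Sp n) := fun t => Equiv.ofBijective (fun w => w + η t • H w)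
      (bijective_id_add hthird (hscale H hH t)) with hA
    have hAapp : ∀ t w, A t w = w + η t • H w := fun t w => rfl
    have hAs : ContDiff ℝ ∞ (fun p : ℝ × Sp n => A p.1 p.2) := by
      have : (fun p : ℝ × Sp n => A p.1 p.2) = fun p => p.2 + η p.1 • H p.2 := by
        ext1 p; exact hAapp _ _
      rw [this]
      exact contDiff_snd.add ((hηs.comp contDiff_fst).smul (hHs.comp contDiff_snd))
    refine ⟨A, hAapp, hAs, ?_⟩
    set P : ℝ × Sp n ≃ ℝ × Sp n :=
      { toFun := fun p => (p.1, A p.1 p.2)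
        invFun := fun p => (p.1, (A p.1).symm p.2)
        left_inv := fun p => by simp
        right_inv := fun p => by simp } with hP
    have hPs : ContDiff ℝ ∞ P := contDiff_fst.prodMk hAs
    have hPi : ContDiff ℝ ∞ P.symm := by
      refine contDiff_symm_of_equiv P hPs fun p => ?_
      have hPd : DifferentiableAt ℝ P p := (hPs.differentiable (by simp)) p
      have hd : DifferentiableAt ℝ (fun p : ℝ × Sp n => A p.1 p.2) p :=
        (hAs.differentiable (by simp)) p
      obtain ⟨f', hf'⟩ := exists_equiv_of_injective (fderiv ℝ P p) (fun u hu => by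
        have h1 : fderiv ℝ P p u = (u.1, fderiv ℝ (fun p : ℝ × Sp n => A p.1 p.2) p u) := by
          have : HasFDerivAt P ((ContinuousLinearMap.fst ℝ ℝ (Sp n)).prod
              (fderiv ℝ (fun p : ℝ × Sp n => A p.1 p.2) p)) p :=
            (hasFDerivAt_fst (p := p)).prodMk hd.hasFDerivAt
          rw [this.fderiv]; rfl
        rw [h1] at hu
        have h2 : u.1 = 0 := congrArg Prod.fst hu
        have h3 : fderiv ℝ (fun p : ℝ × Sp n => A p.1 p.2) p u = 0 := congrArg Prod.snd hu
        have h4 : u = (0, u.2) := Prod.ext h2 rfl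
        have h5 : fderiv ℝ (fun p : ℝ × Sp n => A p.1 p.2) p (0, u.2) =
            u.2 + fderiv ℝ (fun w => η p.1 • H w) p.2 u.2 := by
          have e1 : HasFDerivAt (fun w : Sp n => ((p.1, w) : ℝ × Sp n))
              (ContinuousLinearMap.inr ℝ ℝ (Sp n)) p.2 := hasFDerivAt_prodMk_right p.1 p.2
          have e2 : HasFDerivAt ((fun p : ℝ × Sp n => A p.1 p.2) ∘ (fun w : Sp n => ((p.1, w) :
              ℝ × Sp n))) ((fderiv ℝ (fun p : ℝ × Sp n => A p.1 p.2) p).comp
              (ContinuousLinearMap.inr ℝ ℝ (Sp n))) p.2 :=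
            HasFDerivAt.comp (x := p.2) (hg := (by simpa using hd.hasFDerivAt)) (hf := e1)
          have e3 : ((fun p : ℝ × Sp n => A p.1 p.2) ∘ (fun w : Sp n => ((p.1, w) : ℝ × Sp n))) =
              fun w => w + η p.1 • H w := by ext1 w; exact hAapp _ _
          rw [e3] at e2
          have e4 : HasFDerivAt (fun w => w + η p.1 • H w) (ContinuousLinearMap.id ℝ (Sp n) +
              fderiv ℝ (fun w => η p.1 • H w) p.2) p.2 := by
            refine (hasFDerivAt_id p.2).add ?_
            exact (((hHs.differentiable (by simp)).const_smul (η p.1)) p.2).hasFDerivAt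
          have e5 := e2.unique e4
          have e6 := congrArg (fun L : Sp n →L[ℝ] Sp n => L u.2) e5
          simpa using e6
        rw [h4, h5] at h3
        have h6 := key (fun w => η p.1 • H w) _ hthird (hscale H hH p.1)
          ((hHs.differentiable (by simp)).const_smul (η p.1)) p.2 u.2 h3
        rw [h4, h6]; rfl)
      refine ⟨f', ?_⟩
      rw [hf']
      exact hPd.hasFDerivAt
    exact contDiff_snd.comp hPi
  obtain ⟨A, hAapp, hAs, hAis⟩ := fam F hFL hFs
  obtain ⟨Bt, hBapp', hBts, hBtis⟩ := fam G hGL hGs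
  -- the support
  have hCoff : ∀ w, w ∉ K → C w = w := fun w hw => by
    have : B w = w := by rw [hBapp]; simp [hhB, hδ, hK w hw]
    rw [hC]; simp only; rw [Equiv.symm_apply_eq, this]
  have hfoff : ∀ w, w ∉ K → f w = 0 := fun w hw => by simp [hf, hδ, hCoff w hw, hK w hw]
  have hgoff : ∀ w, w ∉ K → g w = 0 := fun w hw => by simp [hg, hδ, hCoff w hw, hK w hw]
  have hAoff : ∀ t w, w ∉ K → A t w = w := fun t w hw => by
    rw [hAapp]; simp [hF, hfoff w hw]
  have hBoff : ∀ t w, w ∉ K → Bt t w = w := fun t w hw => by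
    rw [hBapp']; simp [hG, hgoff w hw]
  have hBioff : ∀ t w, w ∉ K → (Bt t).symm w = w := fun t w hw => by
    rw [Equiv.symm_apply_eq, hBoff t w hw]
  -- `B_1 = C` and `A_1 = θ ∘ C`
  have hB1 : ∀ w, Bt 1 w = C w := fun w => by
    rw [hBapp', hη1, one_smul]
    refine Prod.ext ?_ ?_
    · simp [hG, hCfst]
    · simp only [hG, hg, hδ, Prod.snd_add]
      have := hCsnd w
      simp only [Prod.snd_sub]
      rw [this]
      abel
  have hA1 : ∀ w, A 1 w = θ (C w) := fun w => by
    rw [hAapp, hη1, one_smul]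
    refine Prod.ext ?_ ?_
    · simp only [hF, hf, hδ, Prod.fst_add, Prod.fst_sub]
      rw [hCfst w]
      abel
    · simp only [hF, Prod.snd_add, add_zero]
      exact (hCsnd w).symm
  -- derivatives
  have hAd : ∀ t w u, fderiv ℝ (A t) w u = u + η t • ((fderiv ℝ f w u, 0) : Sp n) := by
    intro t w u
    have h1 : HasFDerivAt F ((fderiv ℝ f w).prod 0) w :=
      ((hfs.differentiable (by simp)) w).hasFDerivAt.prodMk (hasFDerivAt_const _ _)
    have h2 : HasFDerivAt (A t) (ContinuousLinearMap.id ℝ (Sp n) + η t • ((fderiv ℝ f w).prod 0)) w :=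
      ((hasFDerivAt_id w).add (h1.const_smul (η t))).congr_of_eventuallyEq
        (Eventually.of_forall fun w => hAapp t w)
    rw [h2.fderiv]; rfl
  have hBd : ∀ t w u, fderiv ℝ (Bt t) w u = u + η t • ((0, fderiv ℝ g w u) : Sp n) := by
    intro t w u
    have h1 : HasFDerivAt G ((0 : Sp n →L[ℝ] EuclideanSpace ℝ (Fin n)).prod (fderiv ℝ g w)) w :=
      (hasFDerivAt_const _ _).prodMk ((hgs.differentiable (by simp)) w).hasFDerivAt
    have h2 : HasFDerivAt (Bt t) (ContinuousLinearMap.id ℝ (Sp n) + η t •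
        ((0 : Sp n →L[ℝ] EuclideanSpace ℝ (Fin n)).prod (fderiv ℝ g w))) w :=
      ((hasFDerivAt_id w).add (h1.const_smul (η t))).congr_of_eventuallyEq
        (Eventually.of_forall fun w => hBapp' t w)
    rw [h2.fderiv]; rfl
  have hAω : ∀ t w u v, omega (fderiv ℝ (A t) w u) (fderiv ℝ (A t) w v) = omega u v +
      η t * (omega u (fderiv ℝ f w v, 0) + omega ((fderiv ℝ f w u, 0) : Sp n) v) := by
    intro t w u v
    rw [hAd, hAd, omega_add_left, omega_add_right, omega_add_right, omega_smul_left,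
      omega_smul_left, omega_smul_right, omega_smul_right, omega_fst_fst]
    ring
  have hBω : ∀ t w u v, omega (fderiv ℝ (Bt t) w u) (fderiv ℝ (Bt t) w v) = omega u v +
      η t * (omega u (0, fderiv ℝ g w v) + omega ((0, fderiv ℝ g w u) : Sp n) v) := by
    intro t w u v
    rw [hBd, hBd, omega_add_left, omega_add_right, omega_add_right, omega_smul_left,
      omega_smul_left, omega_smul_right, omega_smul_right, omega_snd_snd]
    ring
  have hclosed : ∀ w u v, omega u (fderiv ℝ f w v, 0) + omega ((fderiv ℝ f w u, 0) : Sp n) v =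
      omega u (0, fderiv ℝ g w v) + omega ((0, fderiv ℝ g w u) : Sp n) v := by
    intro w u v
    have h1 := hAω 1 w u v
    have h2 := hBω 1 w u v
    have eB : (Bt 1 : Sp n → Sp n) = C := funext hB1
    have eA : (A 1 : Sp n → Sp n) = θ ∘ C := funext hA1
    have hCd : DifferentiableAt ℝ C w := (hBinv.differentiable (by simp)) w
    have h3 : fderiv ℝ (A 1) w = (fderiv ℝ θ (C w)).comp (fderiv ℝ C w) := by
      rw [eA]; exact fderiv_comp w (hθd _) hCd
    rw [h3] at h1
    rw [eB] at h2
    simp only [ContinuousLinearMap.comp_apply] at h1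
    rw [hsym, h2, hη1] at h1
    linarith
  have hAB : ∀ t w u v, omega (fderiv ℝ (A t) w u) (fderiv ℝ (A t) w v) =
      omega (fderiv ℝ (Bt t) w u) (fderiv ℝ (Bt t) w v) := by
    intro t w u v
    rw [hAω, hBω, hclosed]
  refine ⟨fun t => (Bt t).symm.trans (A t), ?_, ?_, ?_, ?_, ?_, ?_⟩
  · have : (fun p : ℝ × Sp n => ((Bt p.1).symm.trans (A p.1)) p.2) =
        (fun p : ℝ × Sp n => A p.1 p.2) ∘ (fun p : ℝ × Sp n => (p.1, (Bt p.1).symm p.2)) := rfl
    rw [this]
    exact hAs.comp (contDiff_fst.prodMk hBtis)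
  · have : (fun p : ℝ × Sp n => ((Bt p.1).symm.trans (A p.1)).symm p.2) =
        (fun p : ℝ × Sp n => Bt p.1 p.2) ∘ (fun p : ℝ × Sp n => (p.1, (A p.1).symm p.2)) := rfl
    rw [this]
    exact hBts.comp (contDiff_fst.prodMk hAis)
  · intro z
    have h1 : (Bt 0).symm z = z := by
      rw [Equiv.symm_apply_eq, hBapp', hη0]; simp
    change A 0 ((Bt 0).symm z) = z
    rw [h1, hAapp, hη0]; simp
  · intro z
    change A 1 ((Bt 1).symm z) = θ z
    rw [hA1, ← hB1, Equiv.apply_symm_apply]
  · intro t z hz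
    change A t ((Bt t).symm z) = z
    rw [hBioff t z hz, hAoff t z hz]
  · intro t z u v
    have hBt1 : Differentiable ℝ (Bt t) := fun w => by
      have := (hBts.comp ((contDiff_const (c := t)).prodMk contDiff_id)).differentiable
        (by simp : (∞ : WithTop ℕ∞) ≠ 0)
      exact this w
    have hBt2 : Differentiable ℝ (Bt t).symm := fun w => by
      have := (hBtis.comp ((contDiff_const (c := t)).prodMk contDiff_id)).differentiable
        (by simp : (∞ : WithTop ℕ∞) ≠ 0)
      exact this w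
    have hAt1 : Differentiable ℝ (A t) := fun w => by
      have := (hAs.comp ((contDiff_const (c := t)).prodMk contDiff_id)).differentiable
        (by simp : (∞ : WithTop ℕ∞) ≠ 0)
      exact this w
    have h1 : fderiv ℝ ((Bt t).symm.trans (A t)) z =
        (fderiv ℝ (A t) ((Bt t).symm z)).comp (fderiv ℝ (Bt t).symm z) :=
      fderiv_comp z (hAt1 _) (hBt2 z)
    have h2 : ∀ u, fderiv ℝ (Bt t) ((Bt t).symm z) (fderiv ℝ (Bt t).symm z u) = u := by
      intro u
      have h3 : fderiv ℝ ((Bt t) ∘ (Bt t).symm) z =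
          (fderiv ℝ (Bt t) ((Bt t).symm z)).comp (fderiv ℝ (Bt t).symm z) :=
        fderiv_comp z (hBt1 _) (hBt2 z)
      have h4 : ((Bt t) ∘ (Bt t).symm : Sp n → Sp n) = id := by ext1 w; simp
      rw [h4, fderiv_id] at h3
      have h5 := congrArg (fun L : Sp n →L[ℝ] Sp n => L u) h3
      simpa using h5.symm
    rw [h1]
    simp only [ContinuousLinearMap.comp_apply]
    rw [hAB, h2, h2]

end Pool.Agent.Q130.SC
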