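import Pool.Agent.Q130.SC.Diffeo

/-!
# Local diffeomorphisms of a vector space which are the identity off a compact set are bijective
-/

set_option autoImplicit false

open Set Filter Topology
open scoped ContDiff

namespace Pool.Agent.Q130.SC

variable {E : Type*} [NormedAddCommGroup E] [NormedSpace ℝ E] [FiniteDimensional ℝ E]

/-- A smooth map with injective derivative everywhere, equal to the identity off a compact set, is
bijective. -/
theorem bijective_of_off (F : E → E) {K : Set E} (hK : IsCompact K) (hF : ContDiff ℝ ∞ F)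
    (hoff : ∀ z, z ∉ K → F z = z) (hinj : ∀ z u, fderiv ℝ F z u = 0 → u = 0) :
    Function.Bijective F := by
  have hcomplete : CompleteSpace E := FiniteDimensional.complete ℝ E
  have hn : (∞ : WithTop ℕ∞) ≠ 0 := by simp
  have hstr : ∀ z, ∃ f' : E ≃L[ℝ] E, HasStrictFDerivAt F (f' : E →L[ℝ] E) z := fun z => by
    obtain ⟨f', hf'⟩ := exists_equiv_of_injective (fderiv ℝ F z) (hinj z)
    refine ⟨f', ?_⟩
    rw [hf']
    exact (hF.contDiffAt).hasStrictFDerivAt hn
  have hmap : ∀ z, map F (𝓝 z) = 𝓝 (F z) := fun z => by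
    obtain ⟨f', hf'⟩ := hstr z
    exact hf'.map_nhds_eq_of_equiv
  have hcont : Continuous F := hF.continuous
  -- surjectivity
  have hrange : range F = F '' K ∪ {z | F z = z} := by
    ext y
    constructor
    · rintro ⟨x, rfl⟩
      by_cases hx : x ∈ K
      · exact Or.inl ⟨x, hx, rfl⟩
      · right
        change F (F x) = F x
        rw [hoff x hx, hoff x hx]
    · rintro (⟨x, _, rfl⟩ | h)
      · exact ⟨x, rfl⟩
      · exact ⟨y, h⟩
  have hclosed : IsClosed (range F) := by
    rw [hrange]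
    exact (hK.image hcont).isClosed.union (isClosed_eq hcont continuous_id)
  have hopen : IsOpen (range F) := by
    rw [isOpen_iff_mem_nhds]
    rintro _ ⟨x, rfl⟩
    rw [← hmap x]
    exact Filter.mem_map.2 (Filter.mem_of_superset Filter.univ_mem (fun z _ => mem_range_self z))
  have hsurj : Function.Surjective F := by
    rw [← range_eq_univ]
    exact IsClopen.eq_univ ⟨hclosed, hopen⟩ ⟨F 0, 0, rfl⟩
  refine ⟨?_, hsurj⟩
  -- injectivity
  intro x y hxy
  by_contra hne
  set D : Set (E × E) := {p | F p.1 = F p.2 ∧ p.1 ≠ p.2} with hD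
  have hDclosed : IsClosed D := by
    rw [← isOpen_compl_iff, isOpen_iff_mem_nhds]
    rintro ⟨a, b⟩ hab
    have hab' : ¬ (F a = F b ∧ a ≠ b) := hab
    by_cases h1 : F a = F b
    · have h2 : a = b := by
        by_contra h2
        exact hab' ⟨h1, h2⟩
      subst h2
      obtain ⟨f', hf'⟩ := hstr a
      set e := hf'.toOpenPartialHomeomorph F with he
      have hs : e.source ∈ 𝓝 a := hf'.mem_toOpenPartialHomeomorph_source |> e.open_source.mem_nhds
      have hs2 : e.source ×ˢ e.source ∈ 𝓝 (a, a) := prod_mem_nhds hs hs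
      filter_upwards [hs2]
      rintro ⟨u, v⟩ ⟨hu, hv⟩ ⟨h3, h4⟩
      refine h4 (e.injOn hu hv ?_)
      exact h3
    · have : ∀ᶠ p : E × E in 𝓝 (a, b), F p.1 ≠ F p.2 := by
        have ho : IsOpen {p : E × E | F p.1 ≠ F p.2} :=
          isOpen_ne_fun (hcont.comp continuous_fst) (hcont.comp continuous_snd)
        exact ho.mem_nhds h1
      filter_upwards [this] with p hp hpD
      exact hp hpD.1
  have hDsub : D ⊆ (K ∪ F '' K) ×ˢ (K ∪ F '' K) := by
    rintro ⟨a, b⟩ ⟨h1, h2⟩
    change F a = F b at h1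
    change a ≠ b at h2
    by_cases ha : a ∈ K
    · by_cases hb : b ∈ K
      · exact ⟨Or.inl ha, Or.inl hb⟩
      · refine ⟨Or.inl ha, Or.inr ⟨a, ha, ?_⟩⟩
        rw [h1, hoff b hb]
    · by_cases hb : b ∈ K
      · refine ⟨Or.inr ⟨b, hb, ?_⟩, Or.inl hb⟩
        rw [← h1, hoff a ha]
      · rw [hoff a ha, hoff b hb] at h1
        exact absurd h1 h2
  have hDcompact : IsCompact D := by
    have hKK : IsCompact (K ∪ F '' K) := hK.union (hK.image hcont)
    exact (hKK.prod hKK).of_isClosed_subset hDclosed hDsub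
  obtain ⟨g, _, hg⟩ := exists_dual_vector ℝ (x - y) (norm_ne_zero_iff.2 (sub_ne_zero.2 hne))
  have hgpos : 0 < g (x - y) := by
    rw [hg]; exact norm_pos_iff.2 (sub_ne_zero.2 hne)
  obtain ⟨p, hp, hmax⟩ := hDcompact.exists_isMaxOn (f := fun p : E × E => g (F p.1))
    ⟨(x, y), hxy, hne⟩ (g.continuous.comp (hcont.comp continuous_fst)).continuousOn
  obtain ⟨U, V, hU, hV, hpU, hpV, hUV⟩ := t2_separation hp.2
  have h1 : F '' U ∈ 𝓝 (F p.1) := by
    rw [← hmap]; exact image_mem_map (hU.mem_nhds hpU)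
  have h2 : F '' V ∈ 𝓝 (F p.1) := by
    rw [hp.1, ← hmap]; exact image_mem_map (hV.mem_nhds hpV)
  have h3 : ∃ s : ℝ, 0 < s ∧ F p.1 + s • (x - y) ∈ F '' U ∩ F '' V := by
    have hc : Tendsto (fun s : ℝ => F p.1 + s • (x - y)) (𝓝 0) (𝓝 (F p.1)) := by
      have : Continuous (fun s : ℝ => F p.1 + s • (x - y)) := by fun_prop
      have h := this.tendsto 0
      simpa using h
    have hev := hc.eventually (Filter.inter_mem h1 h2)
    have hev' : ∀ᶠ s in 𝓝[>] (0 : ℝ), F p.1 + s • (x - y) ∈ F '' U ∩ F '' V :=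
      hev.filter_mono nhdsWithin_le_nhds
    obtain ⟨s, hs1, hs2⟩ := (hev'.and self_mem_nhdsWithin).exists
    exact ⟨s, hs2, hs1⟩
  obtain ⟨s, hs, ⟨u, hu, hu'⟩, ⟨v, hv, hv'⟩⟩ := h3
  have huv : u ≠ v := fun h => by
    subst h
    exact (Set.disjoint_left.1 hUV hu) hv
  have h4 : (u, v) ∈ D := ⟨by rw [hu', hv'], huv⟩
  have h5 := hmax h4
  change g (F u) ≤ g (F p.1) at h5
  rw [hu', map_add, map_smul, smul_eq_mul] at h5
  nlinarith

end Pool.Agent.Q130.SC
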