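import Pool.Agent.Q130.SC.Sym
import Pool.Agent.Q130.SC.Cayley

/-!
# The group structure, smooth isotopies, and neighbourhoods in the direct limit topology
-/

set_option autoImplicit false

open Set Filter Topology
open scoped ContDiff

noncomputable section

namespace Pool.Agent.Q130.SC.Sym

variable {n : ℕ}

theorem ext_map {φ ψ : SympCt n} (h : φ.map = ψ.map) : φ = ψ := by
  cases φ; cases ψ; simp only at h; subst h; rfl

theorem ext_fun {φ ψ : SympCt n} (h : ∀ z, φ.map z = ψ.map z) : φ = ψ :=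
  ext_map (Equiv.ext h)

/-- composition of compactly supported symplectomorphisms -/
def comp (φ ψ : SympCt n) : SympCt n where
  map := ψ.map.trans φ.map
  smooth' := φ.smooth.comp ψ.smooth
  smooth_symm' := ψ.smooth_symm.comp φ.smooth_symm
  symplectic' := fun z u v => by
    have e : fderiv ℝ (ψ.map.trans φ.map) z = (fderiv ℝ φ.map (ψ.map z)).comp
        (fderiv ℝ ψ.map z) :=
      fderiv_comp z ((φ.smooth.differentiable (by simp)) _) ((ψ.smooth.differentiable (by simp)) _)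
    change omega (fderiv ℝ (ψ.map.trans φ.map) z u) (fderiv ℝ (ψ.map.trans φ.map) z v) = omega u v
    rw [e]
    change omega (fderiv ℝ φ.map (ψ.map z) (fderiv ℝ ψ.map z u))
      (fderiv ℝ φ.map (ψ.map z) (fderiv ℝ ψ.map z v)) = omega u v
    rw [φ.symplectic, ψ.symplectic]
  compactSupport := by
    obtain ⟨K, hK, h⟩ := φ.compactSupport
    obtain ⟨L, hL, h'⟩ := ψ.compactSupport
    refine ⟨K ∪ L, hK.union hL, fun z hz => ?_⟩
    rw [Equiv.trans_apply, h' z (fun h => hz (Or.inr h)), h z (fun h => hz (Or.inl h))]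

/-- the identity -/
def one (n : ℕ) : SympCt n where
  map := Equiv.refl _
  smooth' := contDiff_id
  smooth_symm' := contDiff_id
  symplectic' := fun z u v => by
    change omega (fderiv ℝ (id : R2 n → R2 n) z u) (fderiv ℝ (id : R2 n → R2 n) z v) = omega u v
    rw [fderiv_id]; rfl
  compactSupport := ⟨∅, isCompact_empty, fun z _ => rfl⟩

/-- The group structure on the set of compactly supported symplectomorphisms: the product of `φ` and
`ψ` is the composition `φ ∘ ψ`. -/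
instance group (n : ℕ) : Group (SympCt n) where
  mul := comp
  one := one n
  inv := inv
  mul_assoc _ _ _ := ext_fun fun _ => rfl
  one_mul _ := ext_fun fun _ => rfl
  mul_one _ := ext_fun fun _ => rfl
  inv_mul_cancel φ := ext_fun fun z => φ.map.symm_apply_apply z

theorem mul_apply (φ ψ : SympCt n) (z : R2 n) : (φ * ψ).map z = φ.map (ψ.map z) := rfl

theorem one_apply (z : R2 n) : (1 : SympCt n).map z = z := rfl

theorem inv_apply (φ : SympCt n) (z : R2 n) : (φ⁻¹).map z = φ.map.symm z := rfl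

/-- a smooth compactly supported isotopy of symplectomorphisms from `φ` to `ψ` -/
def Iso (φ ψ : SympCt n) : Prop :=
  ∃ K : Set (R2 n), IsCompact K ∧ ∃ Φ : ℝ → SympCt n,
    ContDiff ℝ ∞ (fun p : ℝ × R2 n => (Φ p.1).map p.2) ∧
    ContDiff ℝ ∞ (fun p : ℝ × R2 n => (Φ p.1).map.symm p.2) ∧
    (∀ t z, z ∉ K → (Φ t).map z = z) ∧ Φ 0 = φ ∧ Φ 1 = ψ

theorem Iso.joined {φ ψ : SympCt n} (h : Iso φ ψ) : Joined φ ψ := by
  obtain ⟨K, hK, Φ, h1, _, h3, h4, h5⟩ := h
  have : Joined (Φ 0) (Φ 1) := joined_family hK (fun t => ⟨Φ t, h3 t⟩) h1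
  rwa [h4, h5] at this

theorem Iso.refl (φ : SympCt n) : Iso φ φ := by
  obtain ⟨K, hK, h⟩ := φ.compactSupport
  exact ⟨K, hK, fun _ => φ, φ.smooth.comp contDiff_snd, φ.smooth_symm.comp contDiff_snd,
    fun _ => h, rfl, rfl⟩

theorem Iso.mul {φ ψ φ' ψ' : SympCt n} (h : Iso φ ψ) (h' : Iso φ' ψ') :
    Iso (φ * φ') (ψ * ψ') := by
  obtain ⟨K, hK, Φ, h1, h2, h3, h4, h5⟩ := h
  obtain ⟨K', hK', Φ', h1', h2', h3', h4', h5'⟩ := h'
  refine ⟨K ∪ K', hK.union hK', fun t => Φ t * Φ' t, ?_, ?_, fun t z hz => ?_, ?_, ?_⟩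
  · exact h1.comp (contDiff_fst.prodMk h1')
  · exact h2'.comp (contDiff_fst.prodMk h2)
  · rw [mul_apply, h3' t z (fun h => hz (Or.inr h)), h3 t z (fun h => hz (Or.inl h))]
  · simp only [h4, h4']
  · simp only [h5, h5']

theorem Iso.inv {φ ψ : SympCt n} (h : Iso φ ψ) : Iso φ⁻¹ ψ⁻¹ := by
  obtain ⟨K, hK, Φ, h1, h2, h3, h4, h5⟩ := h
  refine ⟨K, hK, fun t => (Φ t)⁻¹, h2, h1, fun t z hz => ?_, ?_, ?_⟩
  · rw [inv_apply, Equiv.symm_apply_eq, h3 t z hz]
  · simp only [h4]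
  · simp only [h5]

/-- a family of symplectic bijections gives an isotopy -/
theorem iso_of_family {K : Set (R2 n)} (hK : IsCompact K) (Φ : ℝ → (R2 n ≃ R2 n))
    (h1 : ContDiff ℝ ∞ (fun p : ℝ × R2 n => Φ p.1 p.2))
    (h2 : ContDiff ℝ ∞ (fun p : ℝ × R2 n => (Φ p.1).symm p.2))
    (h3 : ∀ t z, z ∉ K → Φ t z = z)
    (h4 : ∀ t z u v, omega (fderiv ℝ (Φ t) z u) (fderiv ℝ (Φ t) z v) = omega u v)
    {φ ψ : SympCt n} (h5 : ∀ z, Φ 0 z = φ.map z) (h6 : ∀ z, Φ 1 z = ψ.map z) : Iso φ ψ :=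
  ⟨K, hK, fun t =>
    { map := Φ t
      smooth' := h1.comp ((contDiff_const (c := t)).prodMk contDiff_id)
      smooth_symm' := h2.comp ((contDiff_const (c := t)).prodMk contDiff_id)
      symplectic' := h4 t
      compactSupport := ⟨K, hK, h3 t⟩ }, h1, h2, h3, ext_fun h5, ext_fun h6⟩

/-- The eigenvalue criterion. -/
theorem iso_of_good (P : R2 n →ₗ[ℝ] R2 n)
    (hP : ∀ u v, omega (P u) v + omega u (P v) = omega u v) (φ : SympCt n)
    (hgood : ∀ z u, ∀ μ : ℝ, μ ≤ -1 → P (der φ.map z u - u) = μ • u → u = 0) : Iso 1 φ := by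
  obtain ⟨K, hK, hoff⟩ := φ.compactSupport
  obtain ⟨Φ, h1, h2, h3, h4, h5, h6⟩ := Pool.Agent.Q130.SC.cayley_isotopy (n := n) hK
    (LinearMap.toContinuousLinearMap P) hP φ.map φ.smooth φ.symplectic hoff hgood
  exact iso_of_family hK Φ h1 h2 h5 h6 h3 h4

/-- The eigenvalue criterion, midpoint case: no negative real eigenvalue. -/
theorem iso_of_noNeg (φ : SympCt n)
    (h : ∀ z u, ∀ μ : ℝ, μ < 0 → der φ.map z u = μ • u → u = 0) : Iso 1 φ := by
  refine iso_of_good ((1 / 2 : ℝ) • LinearMap.id) (fun u v => ?_) φ fun z u μ hμ hu => ?_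
  · have e1 : omega (((1 / 2 : ℝ) • (LinearMap.id : R2 n →ₗ[ℝ] R2 n)) u) v = 1 / 2 * omega u v :=
      Pool.Agent.Q130.SC.omega_smul_left (1 / 2) u v
    have e2 : omega u (((1 / 2 : ℝ) • (LinearMap.id : R2 n →ₗ[ℝ] R2 n)) v) = 1 / 2 * omega u v :=
      Pool.Agent.Q130.SC.omega_smul_right (1 / 2) u v
    rw [e1, e2]; ring
  · refine h z u (1 + 2 * μ) (by linarith) ?_
    have h1 : (1 / 2 : ℝ) • (der φ.map z u - u) = μ • u := hu
    have h2 : (2 : ℝ) • ((1 / 2 : ℝ) • (der φ.map z u - u)) = (2 : ℝ) • (μ • u) := by rw [h1]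
    rw [smul_smul, smul_smul] at h2
    norm_num at h2
    rw [add_smul, one_smul, ← h2]; abel

/-! ### Neighbourhoods -/

theorem norm_comp_isom {E F G : Type*} [NormedAddCommGroup E] [NormedSpace ℝ E]
    [NormedAddCommGroup F] [NormedSpace ℝ F] [NormedAddCommGroup G] [NormedSpace ℝ G]
    (e : F ≃ₗᵢ[ℝ] G) (A : E →L[ℝ] F) :
    ‖((e.toContinuousLinearEquiv : F ≃L[ℝ] G) : F →L[ℝ] G).comp A‖ = ‖A‖ :=
  e.toLinearIsometry.norm_toContinuousLinearMap_comp

theorem nhd_jets {K : Set (R2 n)} (φ : SupportedIn K) {ε : ℝ} (hε : 0 < ε) :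
    ∀ᶠ ψ : SupportedIn K in 𝓝 φ, (∀ z, dist (ψ.1.map z) (φ.1.map z) < ε ∧
      dist (fderiv ℝ ψ.1.map z) (fderiv ℝ φ.1.map z) < ε) := by
  have hk : ∀ k : ℕ, ∀ᶠ ψ : SupportedIn K in 𝓝 φ, ∀ z, dist (iteratedFDeriv ℝ k φ.1.map z)
      (iteratedFDeriv ℝ k ψ.1.map z) < ε := by
    intro k
    have h1 : Continuous (fun ψ : SupportedIn K => UniformFun.ofFun (jet k ψ.1.map)) := by
      rw [continuous_iff_le_induced]
      exact iInf_le (fun k : ℕ => TopologicalSpace.induced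
        (fun φ : SupportedIn K => jet k φ.1.map) (topUniform n k)) k
    have h2 := h1.tendsto φ
    rw [UniformFun.tendsto_iff_tendstoUniformly, Metric.tendstoUniformly_iff] at h2
    exact h2 ε hε
  filter_upwards [hk 0, hk 1] with ψ h0 h1 z
  constructor
  · have h2 := h0 z
    have e : ∀ f : R2 n → R2 n, iteratedFDeriv ℝ 0 f z =
        (continuousMultilinearCurryFin0 ℝ (R2 n) (R2 n)).symm (f z) := fun f => by
      rw [iteratedFDeriv_zero_eq_comp]; rfl
    rw [e, e, LinearIsometryEquiv.dist_map, dist_comm] at h2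
    exact h2
  · have h2 := h1 z
    have e : ∀ f : R2 n → R2 n, iteratedFDeriv ℝ 1 f z =
        (continuousMultilinearCurryLeftEquiv ℝ (fun _ : Fin 1 => R2 n) (R2 n)).symm
          (fderiv ℝ (iteratedFDeriv ℝ 0 f) z) := fun f => by
      rw [iteratedFDeriv_succ_eq_comp_left]; rfl
    have e' : ∀ f : R2 n → R2 n, fderiv ℝ (iteratedFDeriv ℝ 0 f) z =
        ((continuousMultilinearCurryFin0 ℝ (R2 n) (R2 n)).symm.toContinuousLinearEquiv :
          R2 n →L[ℝ] _).comp (fderiv ℝ f z) := fun f => by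
      rw [iteratedFDeriv_zero_eq_comp]
      exact (continuousMultilinearCurryFin0 ℝ (R2 n) (R2 n)).symm.toContinuousLinearEquiv.comp_fderiv
    rw [e, e, LinearIsometryEquiv.dist_map, e', e', dist_eq_norm, ← ContinuousLinearMap.comp_sub]
      at h2
    rw [dist_comm, dist_eq_norm]
    rwa [norm_comp_isom] at h2

/-- near `φ` the derivative of `φ⁻¹ ψ` is uniformly close to the identity -/
theorem nhd_quot {K : Set (R2 n)} (φ : SupportedIn K) {ε : ℝ} (hε : 0 < ε) :
    ∀ᶠ ψ : SupportedIn K in 𝓝 φ,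
      ∀ z, ‖fderiv ℝ (φ.1⁻¹ * ψ.1).map z - ContinuousLinearMap.id ℝ (R2 n)‖ ≤ ε := by
  obtain ⟨C, hC, hCb⟩ := fderiv_bounded φ.1
  obtain ⟨C', hC', hCb'⟩ := fderiv_bounded (inv φ.1)
  obtain ⟨d, hd, hdb⟩ := fderiv_uniform (inv φ.1) (ε := ε / (2 * C)) (by positivity)
  have hpos : 0 < min d (ε / (2 * C')) := by positivity
  filter_upwards [nhd_jets φ hpos] with ψ hψ z
  have hclose : dist (ψ.1.map z) (φ.1.map z) < d ∧
      ‖fderiv ℝ ψ.1.map z - fderiv ℝ φ.1.map z‖ ≤ ε / (2 * C') := by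
    obtain ⟨h1, h2⟩ := hψ z
    refine ⟨h1.trans_le (min_le_left _ _), ?_⟩
    rw [← dist_eq_norm]
    exact (h2.trans_le (min_le_right _ _)).le
  have e : fderiv ℝ (φ.1⁻¹ * ψ.1).map z =
      (fderiv ℝ φ.1.map.symm (ψ.1.map z)).comp (fderiv ℝ ψ.1.map z) :=
    fderiv_comp z ((φ.1.smooth_symm.differentiable (by simp)) _)
      ((ψ.1.smooth.differentiable (by simp)) _)
  have e1 : ContinuousLinearMap.id ℝ (R2 n) =
      (fderiv ℝ φ.1.map.symm (φ.1.map z)).comp (fderiv ℝ φ.1.map z) :=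
    ContinuousLinearMap.ext fun u => (fderiv_symm_apply φ.1 z u).symm
  have e2 : fderiv ℝ (φ.1⁻¹ * ψ.1).map z - ContinuousLinearMap.id ℝ (R2 n) =
      (fderiv ℝ φ.1.map.symm (ψ.1.map z)).comp (fderiv ℝ ψ.1.map z - fderiv ℝ φ.1.map z) +
      (fderiv ℝ φ.1.map.symm (ψ.1.map z) - fderiv ℝ φ.1.map.symm (φ.1.map z)).comp
        (fderiv ℝ φ.1.map z) := by
    rw [e]
    nth_rewrite 1 [e1]
    rw [ContinuousLinearMap.comp_sub, ContinuousLinearMap.sub_comp]
    abel
  rw [e2]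
  have n1 : ‖(fderiv ℝ φ.1.map.symm (ψ.1.map z)).comp (fderiv ℝ ψ.1.map z - fderiv ℝ φ.1.map z)‖
      ≤ ε / 2 := by
    refine (ContinuousLinearMap.opNorm_comp_le _ _).trans ?_
    calc _ ≤ C' * (ε / (2 * C')) :=
          mul_le_mul (hCb' _) hclose.2 (norm_nonneg _) hC'.le
      _ = ε / 2 := by field_simp
  have n2 : ‖(fderiv ℝ φ.1.map.symm (ψ.1.map z) - fderiv ℝ φ.1.map.symm (φ.1.map z)).comp
      (fderiv ℝ φ.1.map z)‖ ≤ ε / 2 := by
    refine (ContinuousLinearMap.opNorm_comp_le _ _).trans ?_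
    calc _ ≤ (ε / (2 * C)) * C :=
          mul_le_mul (hdb _ _ hclose.1).le (hCb _) (norm_nonneg _) (by positivity)
      _ = ε / 2 := by field_simp
  calc _ ≤ ε / 2 + ε / 2 := (norm_add_le _ _).trans (add_le_add n1 n2)
    _ = ε := by ring

/-- a set of the direct limit topology is open when its traces are -/
theorem isOpen_iff' (U : Set (SympCt n)) : IsOpen U ↔ ∀ K : Set (R2 n), IsCompact K →
    IsOpen {φ : SupportedIn K | φ.1 ∈ U} := by
  constructor
  · intro h K hK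
    exact h.preimage (continuous_incl hK)
  · intro h
    refine isOpen_iSup_iff.2 fun K => ?_
    exact isOpen_coinduced.2 (h K.1 K.2)

/-- A subgroup containing all maps whose derivative is close to the identity is clopen. -/
theorem isClopen_subgroup (H : Subgroup (SympCt n)) {ε : ℝ} (hε : 0 < ε)
    (hH : ∀ φ : SympCt n, (∀ z, ‖fderiv ℝ φ.map z - ContinuousLinearMap.id ℝ (R2 n)‖ ≤ ε) →
      φ ∈ H) : IsClopen (H : Set (SympCt n)) := by
  have key : ∀ U : Set (SympCt n), (∀ φ ∈ U, ∀ h ∈ H, φ * h ∈ U) → IsOpen U := by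
    intro U hU
    rw [isOpen_iff']
    intro K hK
    rw [isOpen_iff_mem_nhds]
    intro φ hφ
    filter_upwards [nhd_quot φ hε] with ψ hψ
    have h1 := hU φ.1 hφ _ (hH _ hψ)
    rwa [mul_inv_cancel_left] at h1
  constructor
  · rw [← isOpen_compl_iff]
    refine key _ fun φ hφ h hh hmem => hφ ?_
    have := H.mul_mem hmem (H.inv_mem hh)
    rwa [mul_inv_cancel_right] at this
  · exact key _ fun φ hφ h hh => H.mul_mem hφ hh

/-- The path component of the identity is contained in every subgroup containing all maps whose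
derivative is close to the identity. -/
theorem pathComponent_subset (H : Subgroup (SympCt n)) {ε : ℝ} (hε : 0 < ε)
    (hH : ∀ φ : SympCt n, (∀ z, ‖fderiv ℝ φ.map z - ContinuousLinearMap.id ℝ (R2 n)‖ ≤ ε) →
      φ ∈ H) : pathComponent (1 : SympCt n) ⊆ (H : Set (SympCt n)) :=
  (pathComponent_subset_component 1).trans
    ((isClopen_subgroup H hε hH).connectedComponent_subset H.one_mem)

/-- the elements smoothly isotopic to the identity -/
def isoSubgroup (n : ℕ) : Subgroup (SympCt n) where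
  carrier := {φ | Iso 1 φ}
  mul_mem' h h' := by have := h.mul h'; rwa [one_mul] at this
  one_mem' := Iso.refl 1
  inv_mem' h := by have := h.inv; rwa [inv_one] at this

theorem noNeg_of_close {ε : ℝ} (hε : ε < 1) (φ : SympCt n)
    (h : ∀ z, ‖fderiv ℝ φ.map z - ContinuousLinearMap.id ℝ (R2 n)‖ ≤ ε) (z u : R2 n) (μ : ℝ)
    (hμ : μ < 0) (hu : der φ.map z u = μ • u) : u = 0 := by
  by_contra hne
  have hpos : 0 < ‖u‖ := norm_pos_iff.2 hne
  have h1 := (fderiv ℝ φ.map z - ContinuousLinearMap.id ℝ (R2 n)).le_of_opNorm_le (h z) u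
  have h2 : (fderiv ℝ φ.map z - ContinuousLinearMap.id ℝ (R2 n)) u = (μ - 1) • u := by
    rw [sub_smul, one_smul, ← hu]; rfl
  rw [h2, norm_smul, Real.norm_eq_abs, abs_of_neg (by linarith)] at h1
  nlinarith

/-- The path component of the identity is the set of smoothly isotopic maps, and it is generated by
every set of smoothly isotopic maps which contains all maps close to the identity. -/
theorem pathComponent_eq (S : Set (SympCt n)) (hS : ∀ φ ∈ S, Iso 1 φ) {ε : ℝ} (hε : 0 < ε)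
    (hclose : ∀ φ : SympCt n, (∀ z, ‖fderiv ℝ φ.map z - ContinuousLinearMap.id ℝ (R2 n)‖ ≤ ε) →
      φ ∈ S) : pathComponent (1 : SympCt n) = (Subgroup.closure S : Set (SympCt n)) := by
  refine Subset.antisymm (pathComponent_subset _ hε fun φ hφ => Subgroup.subset_closure
    (hclose φ hφ)) ?_
  have h1 : Subgroup.closure S ≤ isoSubgroup n := (Subgroup.closure_le _).2 hS
  exact fun φ hφ => (h1 hφ : Iso 1 φ).joined

end Pool.Agent.Q130.SC.Sym
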