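import Pool.Agent.Q130.SC.Grp

/-!
# Conjugation by homotheties and translations, localisation, commutativity of the components
-/

set_option autoImplicit false

open Set Filter Topology
open scoped ContDiff

noncomputable section

namespace Pool.Agent.Q130.SC.Sym

variable {n : ℕ}

/-- Paths can be taken smooth: the path components are the classes of smooth isotopy. -/
theorem joined_iff_iso (φ ψ : SympCt n) : Joined φ ψ ↔ Iso φ ψ := by
  refine ⟨fun h => ?_, Iso.joined⟩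
  -- the coset of `φ` is clopen
  have hclose : ∀ χ : SympCt n, (∀ z, ‖fderiv ℝ χ.map z - ContinuousLinearMap.id ℝ (R2 n)‖ ≤ 1 / 2)
      → χ ∈ isoSubgroup n := fun χ hχ =>
    iso_of_noNeg χ fun z u μ hμ hu => noNeg_of_close (by norm_num) χ hχ z u μ hμ hu
  have key : ∀ U : Set (SympCt n), (∀ φ ∈ U, ∀ h ∈ isoSubgroup n, φ * h ∈ U) → IsOpen U := by
    intro U hU
    rw [isOpen_iff']
    intro K hK
    rw [isOpen_iff_mem_nhds]
    intro φ hφ
    filter_upwards [nhd_quot φ (by norm_num : (0 : ℝ) < 1 / 2)] with ψ hψ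
    have h1 := hU φ.1 hφ _ (hclose _ hψ)
    rwa [mul_inv_cancel_left] at h1
  set U : Set (SympCt n) := {ψ | φ⁻¹ * ψ ∈ isoSubgroup n} with hU
  have hclopen : IsClopen U := by
    constructor
    · rw [← isOpen_compl_iff]
      refine key _ fun χ hχ h hh hmem => hχ ?_
      have h2 : φ⁻¹ * (χ * h) ∈ isoSubgroup n := hmem
      have := (isoSubgroup n).mul_mem h2 ((isoSubgroup n).inv_mem hh)
      rw [mul_assoc, mul_inv_cancel_right] at this
      exact this
    · refine key _ fun χ hχ h hh => ?_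
      have h2 : φ⁻¹ * χ ∈ isoSubgroup n := hχ
      have := (isoSubgroup n).mul_mem h2 hh
      rw [mul_assoc] at this
      exact this
  have hφ : φ ∈ U := by
    change φ⁻¹ * φ ∈ isoSubgroup n
    rw [inv_mul_cancel]
    exact (isoSubgroup n).one_mem
  have h1 : ψ ∈ U := hclopen.connectedComponent_subset hφ (pathComponent_subset_component φ h)
  have h2 : Iso 1 (φ⁻¹ * ψ) := h1
  have h3 := (Iso.refl φ).mul h2
  rwa [mul_one, mul_inv_cancel_left] at h3

/-- a smooth isotopy through symplectomorphisms equal to the identity off a compact subset of `U` -/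
def IsoIn (U : Set (R2 n)) (φ ψ : SympCt n) : Prop :=
  ∃ K : Set (R2 n), IsCompact K ∧ K ⊆ U ∧ ∃ Φ : ℝ → SympCt n,
    ContDiff ℝ ∞ (fun p : ℝ × R2 n => (Φ p.1).map p.2) ∧
    ContDiff ℝ ∞ (fun p : ℝ × R2 n => (Φ p.1).map.symm p.2) ∧
    (∀ t z, z ∉ K → (Φ t).map z = z) ∧ Φ 0 = φ ∧ Φ 1 = ψ

theorem IsoIn.iso {U : Set (R2 n)} {φ ψ : SympCt n} (h : IsoIn U φ ψ) : Iso φ ψ := by
  obtain ⟨K, hK, _, h⟩ := h
  exact ⟨K, hK, h⟩

theorem IsoIn.mul {U : Set (R2 n)} {φ ψ φ' ψ' : SympCt n} (h : IsoIn U φ ψ) (h' : IsoIn U φ' ψ') :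
    IsoIn U (φ * φ') (ψ * ψ') := by
  obtain ⟨K, hK, hKU, Φ, h1, h2, h3, h4, h5⟩ := h
  obtain ⟨K', hK', hKU', Φ', h1', h2', h3', h4', h5'⟩ := h'
  refine ⟨K ∪ K', hK.union hK', union_subset hKU hKU', fun t => Φ t * Φ' t, ?_, ?_,
    fun t z hz => ?_, ?_, ?_⟩
  · exact h1.comp (contDiff_fst.prodMk h1')
  · exact h2'.comp (contDiff_fst.prodMk h2)
  · rw [mul_apply, h3' t z (fun h => hz (Or.inr h)), h3 t z (fun h => hz (Or.inl h))]
  · simp only [h4, h4']
  · simp only [h5, h5']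

theorem IsoIn.inv {U : Set (R2 n)} {φ ψ : SympCt n} (h : IsoIn U φ ψ) : IsoIn U φ⁻¹ ψ⁻¹ := by
  obtain ⟨K, hK, hKU, Φ, h1, h2, h3, h4, h5⟩ := h
  refine ⟨K, hK, hKU, fun t => (Φ t)⁻¹, h2, h1, fun t z hz => ?_, ?_, ?_⟩
  · rw [inv_apply, Equiv.symm_apply_eq, h3 t z hz]
  · simp only [h4]
  · simp only [h5]

/-- the isotopy with constant value an element supported in `U` -/
theorem IsoIn.refl' {U K : Set (R2 n)} (hK : IsCompact K) (hKU : K ⊆ U) (φ : SympCt n)
    (h : ∀ z, z ∉ K → φ.map z = z) : IsoIn U φ φ :=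
  ⟨K, hK, hKU, fun _ => φ, φ.smooth.comp contDiff_snd, φ.smooth_symm.comp contDiff_snd,
    fun _ => h, rfl, rfl⟩

theorem IsoIn.symm {U : Set (R2 n)} {φ ψ : SympCt n} (h : IsoIn U φ ψ) : IsoIn U ψ φ := by
  have h' := h
  obtain ⟨K, hK, hKU, Φ, h1, h2, h3, h4, h5⟩ := h
  have e1 : IsoIn U φ φ := IsoIn.refl' hK hKU φ fun z hz => by rw [← h4]; exact h3 0 z hz
  have e2 : IsoIn U ψ ψ := IsoIn.refl' hK hKU ψ fun z hz => by rw [← h5]; exact h3 1 z hz
  have e3 := (e2.mul h'.inv).mul e1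
  rwa [inv_mul_cancel_right, mul_inv_cancel, one_mul] at e3

theorem IsoIn.trans {U : Set (R2 n)} {φ ψ χ : SympCt n} (h : IsoIn U φ ψ) (h' : IsoIn U ψ χ) :
    IsoIn U φ χ := by
  have hs := h
  obtain ⟨K, hK, hKU, Φ, h1, h2, h3, h4, h5⟩ := h
  have e2 : IsoIn U ψ⁻¹ ψ⁻¹ := (IsoIn.refl' hK hKU ψ fun z hz => by rw [← h5]; exact h3 1 z hz).inv
  have e3 := (hs.mul e2).mul h'
  rwa [inv_mul_cancel_right, mul_inv_cancel, one_mul] at e3

theorem Iso.toIn {φ ψ : SympCt n} (h : Iso φ ψ) : IsoIn univ φ ψ := by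
  obtain ⟨K, hK, h⟩ := h
  exact ⟨K, hK, subset_univ _, h⟩

theorem Iso.trans {φ ψ χ : SympCt n} (h : Iso φ ψ) (h' : Iso ψ χ) : Iso φ χ :=
  (h.toIn.trans h'.toIn).iso

theorem Iso.symm {φ ψ : SympCt n} (h : Iso φ ψ) : Iso ψ φ := h.toIn.symm.iso

/-! ### Conjugation by `z ↦ a z + v` -/

/-- the bijection `z ↦ a z + v` -/
def aff (a : ℝ) (ha : a ≠ 0) (v : R2 n) : R2 n ≃ R2 n where
  toFun z := a • z + v
  invFun z := a⁻¹ • (z - v)
  left_inv z := by
    change a⁻¹ • (a • z + v - v) = z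
    rw [add_sub_cancel_right, smul_smul, inv_mul_cancel₀ ha, one_smul]
  right_inv z := by
    change a • (a⁻¹ • (z - v)) + v = z
    rw [smul_smul, mul_inv_cancel₀ ha, one_smul, sub_add_cancel]

theorem contDiff_aff (a : ℝ) (ha : a ≠ 0) (v : R2 n) : ContDiff ℝ ∞ (aff a ha v) :=
  (contDiff_id.const_smul a).add contDiff_const

theorem contDiff_aff_symm (a : ℝ) (ha : a ≠ 0) (v : R2 n) : ContDiff ℝ ∞ (aff a ha v).symm :=
  (contDiff_id.sub contDiff_const).const_smul a⁻¹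

/-- the conjugate `z ↦ a φ((z - v) / a) + v` -/
def conj (a : ℝ) (ha : a ≠ 0) (v : R2 n) (φ : SympCt n) : SympCt n where
  map := ((aff a ha v).symm.trans φ.map).trans (aff a ha v)
  smooth' := (contDiff_aff a ha v).comp (φ.smooth.comp (contDiff_aff_symm a ha v))
  smooth_symm' := (contDiff_aff a ha v).comp (φ.smooth_symm.comp (contDiff_aff_symm a ha v))
  symplectic' := fun z u w => by
    have hd : ∀ u, fderiv ℝ (((aff a ha v).symm.trans φ.map).trans (aff a ha v)) z u =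
        fderiv ℝ φ.map ((aff a ha v).symm z) u := fun u => by
      have h1 : HasFDerivAt (aff a ha v).symm (a⁻¹ • ContinuousLinearMap.id ℝ (R2 n)) z :=
        ((hasFDerivAt_id z).sub_const v).const_smul a⁻¹
      have h2 : HasFDerivAt φ.map (fderiv ℝ φ.map ((aff a ha v).symm z)) ((aff a ha v).symm z) :=
        ((φ.smooth.differentiable (by simp)) _).hasFDerivAt
      have h3 := h2.comp z h1
      have h4 : HasFDerivAt (((aff a ha v).symm.trans φ.map).trans (aff a ha v))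
          (a • (fderiv ℝ φ.map ((aff a ha v).symm z)).comp
            (a⁻¹ • ContinuousLinearMap.id ℝ (R2 n))) z := (h3.const_smul a).add_const v
      rw [h4.fderiv]
      change a • (fderiv ℝ φ.map ((aff a ha v).symm z)) (a⁻¹ • u) = _
      rw [map_smul, smul_smul, mul_inv_cancel₀ ha, one_smul]
    change omega (fderiv ℝ (((aff a ha v).symm.trans φ.map).trans (aff a ha v)) z u)
      (fderiv ℝ (((aff a ha v).symm.trans φ.map).trans (aff a ha v)) z w) = omega u w
    rw [hd, hd]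
    exact φ.symplectic _ u w
  compactSupport := by
    obtain ⟨K, hK, h⟩ := φ.compactSupport
    refine ⟨aff a ha v '' K, hK.image (contDiff_aff a ha v).continuous, fun z hz => ?_⟩
    have h1 : (aff a ha v).symm z ∉ K := fun h1 => hz ⟨_, h1, (aff a ha v).apply_symm_apply z⟩
    rw [Equiv.trans_apply, Equiv.trans_apply, h _ h1, Equiv.apply_symm_apply]

theorem conj_apply (a : ℝ) (ha : a ≠ 0) (v : R2 n) (φ : SympCt n) (z : R2 n) :
    (conj a ha v φ).map z = a • φ.map (a⁻¹ • (z - v)) + v := rfl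

theorem conj_symm_apply (a : ℝ) (ha : a ≠ 0) (v : R2 n) (φ : SympCt n) (z : R2 n) :
    (conj a ha v φ).map.symm z = a • φ.map.symm (a⁻¹ • (z - v)) + v := rfl

theorem conj_off (a : ℝ) (ha : a ≠ 0) (v : R2 n) (φ : SympCt n) {K L : Set (R2 n)}
    (h : ∀ z, z ∉ K → φ.map z = z) (hL : ∀ z ∈ K, a • z + v ∈ L) (z : R2 n) (hz : z ∉ L) :
    (conj a ha v φ).map z = z := by
  rw [conj_apply]
  have h1 : a⁻¹ • (z - v) ∉ K := fun h1 => hz (by
    have := hL _ h1
    rwa [smul_smul, mul_inv_cancel₀ ha, one_smul, sub_add_cancel] at this)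
  rw [h _ h1, smul_smul, mul_inv_cancel₀ ha, one_smul, sub_add_cancel]

theorem conj_one (v : R2 n) (hv : v = 0) (a : ℝ) (h1 : a = 1) (ha : a ≠ 0) (φ : SympCt n) :
    conj a ha v φ = φ := by
  subst hv; subst h1
  refine ext_fun fun z => ?_
  rw [conj_apply]; simp

/-- the isotopy of the conjugates by a smooth family of homotheties and translations -/
theorem isoIn_conj {U K : Set (R2 n)} (φ : SympCt n) (hφ : ∀ z, z ∉ K → φ.map z = z)
    (hK : IsCompact K) (a : ℝ → ℝ) (v : ℝ → R2 n) (has : ContDiff ℝ ∞ a) (hvs : ContDiff ℝ ∞ v)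
    (ha : ∀ t, a t ≠ 0)
    (hU : ∀ s : ℝ, 0 ≤ s → s ≤ 1 → ∀ z ∈ K, a s • z + v s ∈ U) :
    IsoIn U (conj (a 0) (ha 0) (v 0) φ) (conj (a 1) (ha 1) (v 1) φ) := by
  set η : ℝ → ℝ := fun t => (1 - Real.cos (Real.pi * t)) / 2 with hη
  have hηs : ContDiff ℝ ∞ η := by
    rw [hη]
    exact ((contDiff_const.sub (Real.contDiff_cos.comp (contDiff_const.mul contDiff_id))).div_const 2)
  have hη0 : η 0 = 0 := by simp [hη]
  have hη1 : η 1 = 1 := by simp [hη]
  have hηb0 : ∀ t, 0 ≤ η t := fun t => by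
    have h1 := Real.cos_le_one (Real.pi * t)
    simp only [hη]; linarith
  have hηb1 : ∀ t, η t ≤ 1 := fun t => by
    have h1 := Real.neg_one_le_cos (Real.pi * t)
    simp only [hη]; linarith
  have hAs : ContDiff ℝ ∞ (fun p : ℝ × R2 n => a (η p.1)) := (has.comp hηs).comp contDiff_fst
  have hVs : ContDiff ℝ ∞ (fun p : ℝ × R2 n => v (η p.1)) := (hvs.comp hηs).comp contDiff_fst
  have harg : ContDiff ℝ ∞ (fun p : ℝ × R2 n => (a (η p.1))⁻¹ • (p.2 - v (η p.1))) :=
    (hAs.inv fun p => ha _).smul (contDiff_snd.sub hVs)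
  refine ⟨(fun p : ℝ × R2 n => a p.1 • p.2 + v p.1) '' (Icc 0 1 ×ˢ K), ?_, ?_,
    fun t => conj (a (η t)) (ha _) (v (η t)) φ, ?_, ?_, fun t z hz => ?_, ?_, ?_⟩
  · refine (isCompact_Icc.prod hK).image ?_
    exact ((has.continuous.comp continuous_fst).smul continuous_snd).add
      (hvs.continuous.comp continuous_fst)
  · rintro _ ⟨⟨s, z⟩, ⟨hs, hz⟩, rfl⟩
    exact hU s hs.1 hs.2 z hz
  · exact (hAs.smul (φ.smooth.comp harg)).add hVs
  · exact (hAs.smul (φ.smooth_symm.comp harg)).add hVs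
  · exact conj_off _ _ _ φ (L := (fun p : ℝ × R2 n => a p.1 • p.2 + v p.1) '' (Icc 0 1 ×ˢ K)) hφ
      (fun z hz => ⟨(η t, z), ⟨⟨hηb0 t, hηb1 t⟩, hz⟩, rfl⟩) z hz
  · simp only [hη0]
  · simp only [hη1]

/-- conjugates of isotopies by `z ↦ a z + v` -/
theorem Iso.conj_isoIn {φ ψ : SympCt n} {K : Set (R2 n)} (hK : IsCompact K) (Φ : ℝ → SympCt n)
    (h1 : ContDiff ℝ ∞ (fun p : ℝ × R2 n => (Φ p.1).map p.2))
    (h2 : ContDiff ℝ ∞ (fun p : ℝ × R2 n => (Φ p.1).map.symm p.2))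
    (h3 : ∀ t z, z ∉ K → (Φ t).map z = z) (h4 : Φ 0 = φ) (h5 : Φ 1 = ψ)
    (a : ℝ) (ha : a ≠ 0) (v : R2 n) {U : Set (R2 n)} (hU : ∀ z ∈ K, a • z + v ∈ U) :
    IsoIn U (Sym.conj a ha v φ) (Sym.conj a ha v ψ) := by
  have harg : ContDiff ℝ ∞ (fun p : ℝ × R2 n => (p.1, a⁻¹ • (p.2 - v))) :=
    contDiff_fst.prodMk ((contDiff_snd.sub contDiff_const).const_smul a⁻¹)
  refine ⟨aff a ha v '' K, hK.image (contDiff_aff a ha v).continuous, ?_,
    fun t => Sym.conj a ha v (Φ t), ?_, ?_, fun t z hz => ?_, ?_, ?_⟩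
  · rintro _ ⟨z, hz, rfl⟩
    exact hU z hz
  · exact ((h1.comp harg).const_smul a).add contDiff_const
  · exact ((h2.comp harg).const_smul a).add contDiff_const
  · exact conj_off a ha v (Φ t) (L := aff a ha v '' K) (h3 t) (fun z hz => ⟨z, hz, rfl⟩) z hz
  · simp only [h4]
  · simp only [h5]

/-- maps with disjoint supports commute -/
theorem mul_comm_of_disjoint {φ ψ : SympCt n} {K L : Set (R2 n)} (hK : ∀ z, z ∉ K → φ.map z = z)
    (hL : ∀ z, z ∉ L → ψ.map z = z) (hKL : Disjoint K L) : φ * ψ = ψ * φ := by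
  have hpres : ∀ (χ : SympCt n) (M : Set (R2 n)), (∀ z, z ∉ M → χ.map z = z) →
      ∀ z ∈ M, χ.map z ∈ M := by
    intro χ M hM z hz
    by_contra h
    have h1 := hM _ h
    have h2 := χ.map.injective h1
    rw [h2] at h
    exact h hz
  refine ext_fun fun z => ?_
  rw [mul_apply, mul_apply]
  by_cases hz : z ∈ K
  · have h1 : z ∉ L := fun h => Set.disjoint_left.1 hKL hz h
    have h2 : φ.map z ∉ L := fun h => Set.disjoint_left.1 hKL (hpres φ K hK z hz) h
    rw [hL z h1, hL _ h2]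
  · rw [hK z hz]
    by_cases hz' : z ∈ L
    · have h2 : ψ.map z ∉ K := fun h => Set.disjoint_left.1 hKL h (hpres ψ L hL z hz')
      rw [hK _ h2]
    · rw [hL z hz', hK z hz]

/-- the conjugate by a translation is isotopic to the map -/
theorem iso_translate (φ : SympCt n) (v : R2 n) : Iso φ (Sym.conj 1 one_ne_zero v φ) := by
  obtain ⟨K, hK, h⟩ := φ.compactSupport
  have := isoIn_conj (U := univ) φ h hK (fun _ => 1) (fun t => t • v) contDiff_const
    (contDiff_id.smul contDiff_const) (fun _ => one_ne_zero) (fun _ _ _ _ _ => trivial)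
  simp only [one_smul, zero_smul] at this
  rw [conj_one 0 rfl 1 rfl] at this
  exact this.iso

/-- the conjugate by a homothety with centre `c` is isotopic to the map -/
theorem isoIn_scale {U K : Set (R2 n)} (φ : SympCt n) (hφ : ∀ z, z ∉ K → φ.map z = z)
    (hK : IsCompact K) (c : R2 n) (b : ℝ) (hb : 0 < b)
    (hU : ∀ s : ℝ, b ≤ s → s ≤ 1 → ∀ z ∈ K, c + s • (z - c) ∈ U) (hb1 : b ≤ 1) :
    IsoIn U φ (Sym.conj b hb.ne' (c - b • c) φ) := by
  have h := isoIn_conj (U := U) φ hφ hK (fun t => Real.exp (t * Real.log b))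
    (fun t => c - Real.exp (t * Real.log b) • c)
    (Real.contDiff_exp.comp (contDiff_id.mul contDiff_const))
    (contDiff_const.sub ((Real.contDiff_exp.comp (contDiff_id.mul contDiff_const)).smul
      contDiff_const)) (fun t => (Real.exp_pos _).ne') (fun s hs0 hs1 z hz => by
        have h1 : Real.log b ≤ 0 := Real.log_nonpos hb.le hb1
        have h2 : b ≤ Real.exp (s * Real.log b) := by
          calc b = Real.exp (1 * Real.log b) := by rw [one_mul, Real.exp_log hb]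
            _ ≤ _ := Real.exp_le_exp.2 (by nlinarith)
        have h3 : Real.exp (s * Real.log b) ≤ 1 := by
          rw [Real.exp_le_one_iff]; nlinarith
        have h4 := hU _ h2 h3 z hz
        have h5 : Real.exp (s * Real.log b) • z + (c - Real.exp (s * Real.log b) • c) =
            c + Real.exp (s * Real.log b) • (z - c) := by
          rw [smul_sub]; abel
        rw [h5]; exact h4)
  have e1 : Real.exp (1 * Real.log b) = b := by rw [one_mul, Real.exp_log hb]
  have e0 : Real.exp (0 * Real.log b) = 1 := by rw [zero_mul, Real.exp_zero]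
  rw [conj_one (c - Real.exp (0 * Real.log b) • c) (by rw [e0, one_smul, sub_self]) _ e0] at h
  have e2 : Sym.conj (Real.exp (1 * Real.log b)) (Real.exp_pos _).ne'
      (c - Real.exp (1 * Real.log b) • c) φ = Sym.conj b hb.ne' (c - b • c) φ := by
    refine ext_fun fun z => ?_
    rw [conj_apply, conj_apply, e1]
  rwa [e2] at h

/-- the group of path components is abelian -/
theorem iso_comm (φ ψ : SympCt n) : Iso (φ * ψ) (ψ * φ) := by
  rcases Nat.eq_zero_or_pos n with hn | hn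
  · subst hn
    have : φ * ψ = ψ * φ := ext_fun fun z => Subsingleton.elim _ _
    rw [this]
    exact Iso.refl _
  obtain ⟨K, hK, h⟩ := φ.compactSupport
  obtain ⟨L, hL, h'⟩ := ψ.compactSupport
  obtain ⟨r, hr⟩ := hK.isBounded.subset_closedBall (0 : R2 n)
  obtain ⟨s, hs⟩ := hL.isBounded.subset_closedBall (0 : R2 n)
  have : Nontrivial (R2 n) := by
    have : Nontrivial (EuclideanSpace ℝ (Fin n)) := by
      have : Nonempty (Fin n) := ⟨⟨0, hn⟩⟩
      infer_instance
    infer_instance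
  obtain ⟨v, hv⟩ := NormedSpace.exists_lt_norm ℝ (R2 n) (r + s)
  have hd : Disjoint K ((fun z => (1 : ℝ) • z + v) '' L) := by
    rw [Set.disjoint_left]
    rintro _ hz ⟨w, hw, rfl⟩
    have h1 := hr hz
    have h2 := hs hw
    rw [Metric.mem_closedBall, dist_zero_right] at h1 h2
    have h1 : ‖(1 : ℝ) • w + v‖ ≤ r := h1
    rw [one_smul] at h1
    have h3 : ‖v‖ ≤ ‖w + v‖ + ‖w‖ := by
      calc ‖v‖ = ‖(w + v) - w‖ := by congr 1; abel
        _ ≤ _ := norm_sub_le _ _
    linarith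
  have h1 := iso_translate ψ v
  have h2 : φ * Sym.conj 1 one_ne_zero v ψ = Sym.conj 1 one_ne_zero v ψ * φ :=
    mul_comm_of_disjoint h (fun z hz => conj_off 1 one_ne_zero v ψ
      (L := (fun z => (1 : ℝ) • z + v) '' L) h' (fun z hz => ⟨z, hz, rfl⟩) z hz) hd
  have h3 := (Iso.refl φ).mul h1
  rw [h2] at h3
  exact h3.trans (h1.symm.mul (Iso.refl φ))

/-- localisation in an arbitrary nonempty open set -/
theorem exists_iso_in {U : Set (R2 n)} (hU : IsOpen U) {c : R2 n} (hc : c ∈ U) (φ : SympCt n) :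
    ∃ ψ : SympCt n, Iso φ ψ ∧ ∃ K : Set (R2 n), IsCompact K ∧ K ⊆ U ∧ ∀ z, z ∉ K → ψ.map z = z := by
  obtain ⟨K, hK, h⟩ := φ.compactSupport
  obtain ⟨ε, hε, hball⟩ := Metric.isOpen_iff.1 hU c hc
  obtain ⟨r, hr⟩ := hK.isBounded.subset_closedBall c
  set R : ℝ := max r 1 with hR
  have hRpos : 0 < R := lt_of_lt_of_le one_pos (le_max_right _ _)
  set b : ℝ := min 1 (ε / (2 * R)) with hb
  have hbpos : 0 < b := lt_min one_pos (by positivity)
  have h1 := isoIn_scale (U := univ) φ h hK c b hbpos (fun _ _ _ _ _ => trivial) (min_le_left _ _)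
  refine ⟨_, h1.iso, Metric.closedBall c (ε / 2), isCompact_closedBall _ _, fun z hz => hball ?_,
    conj_off _ _ _ φ h fun z hz => ?_⟩
  · have := Metric.mem_closedBall.1 hz
    rw [Metric.mem_ball]; linarith
  · have h2 := Metric.mem_closedBall.1 (hr hz)
    rw [Metric.mem_closedBall, dist_eq_norm]
    have h3 : b • z + (c - b • c) - c = b • (z - c) := by rw [smul_sub]; abel
    rw [h3, norm_smul, Real.norm_eq_abs, abs_of_pos hbpos, ← dist_eq_norm]
    have h4 : dist z c ≤ R := h2.trans (le_max_left _ _)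
    calc b * dist z c ≤ (ε / (2 * R)) * R :=
          mul_le_mul (min_le_right _ _) h4 dist_nonneg (by positivity)
      _ = ε / 2 := by field_simp

/-- isotopies of maps supported in an open set which is star-shaped with respect to one of its
points can be taken inside this set -/
theorem isoIn_of_iso {U : Set (R2 n)} (hU : IsOpen U) {c : R2 n} (hc : c ∈ U)
    (hstar : ∀ z ∈ U, ∀ s : ℝ, 0 ≤ s → s ≤ 1 → c + s • (z - c) ∈ U) {φ ψ : SympCt n}
    (hφ : ∃ K : Set (R2 n), IsCompact K ∧ K ⊆ U ∧ ∀ z, z ∉ K → φ.map z = z)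
    (hψ : ∃ K : Set (R2 n), IsCompact K ∧ K ⊆ U ∧ ∀ z, z ∉ K → ψ.map z = z)
    (h : Iso φ ψ) : IsoIn U φ ψ := by
  obtain ⟨K, hK, hKU, hφ⟩ := hφ
  obtain ⟨L, hL, hLU, hψ⟩ := hψ
  obtain ⟨M, hM, Φ, h1, h2, h3, h4, h5⟩ := h
  obtain ⟨ε, hε, hball⟩ := Metric.isOpen_iff.1 hU c hc
  obtain ⟨r, hr⟩ := hM.isBounded.subset_closedBall c
  set R : ℝ := max r 1 with hR
  have hRpos : 0 < R := lt_of_lt_of_le one_pos (le_max_right _ _)
  set b : ℝ := min 1 (ε / (2 * R)) with hb
  have hbpos : 0 < b := lt_min one_pos (by positivity)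
  have e1 : IsoIn U φ (Sym.conj b hbpos.ne' (c - b • c) φ) :=
    isoIn_scale φ hφ hK c b hbpos (fun s hs0 hs1 z hz => hstar z (hKU hz) s (by linarith) hs1)
      (min_le_left _ _)
  have e2 : IsoIn U ψ (Sym.conj b hbpos.ne' (c - b • c) ψ) :=
    isoIn_scale ψ hψ hL c b hbpos (fun s hs0 hs1 z hz => hstar z (hLU hz) s (by linarith) hs1)
      (min_le_left _ _)
  have e3 : IsoIn U (Sym.conj b hbpos.ne' (c - b • c) φ)
      (Sym.conj b hbpos.ne' (c - b • c) ψ) := by
    refine Iso.conj_isoIn hM Φ h1 h2 h3 h4 h5 b hbpos.ne' (c - b • c) fun z hz => hball ?_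
    have h2 := Metric.mem_closedBall.1 (hr hz)
    rw [Metric.mem_ball, dist_eq_norm]
    have h3 : b • z + (c - b • c) - c = b • (z - c) := by rw [smul_sub]; abel
    rw [h3, norm_smul, Real.norm_eq_abs, abs_of_pos hbpos, ← dist_eq_norm]
    have h4 : dist z c ≤ R := h2.trans (le_max_left _ _)
    calc b * dist z c ≤ (ε / (2 * R)) * R :=
          mul_le_mul (min_le_right _ _) h4 dist_nonneg (by positivity)
      _ = ε / 2 := by field_simp
      _ < ε := by linarith
  exact e1.trans (e3.trans e2.symm)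

end Pool.Agent.Q130.SC.Sym
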