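import Pool.Agent.Q130.SC.Gen

/-!
# The group of compactly supported symplectomorphisms of `ℝ^{2n}`: definitions and basic facts

The text is that of `MP_ec5dc5_gt.CountableComponents`.
-/

set_option autoImplicit false

open Set Filter Topology
open scoped ContDiff

noncomputable section

namespace Pool.Agent.Q130.SC.Sym

/-- `ℝ^{2n}`, as the space of pairs `(x, y)` of vectors of `ℝⁿ` -/
abbrev R2 (n : ℕ) : Type := EuclideanSpace ℝ (Fin n) × EuclideanSpace ℝ (Fin n)

/-- the standard symplectic form `∑ dx_i ∧ dy_i` -/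
def omega {n : ℕ} (u v : R2 n) : ℝ := ∑ i, (u.1 i * v.2 i - u.2 i * v.1 i)

/-- `f` is infinitely differentiable -/
def IsSmooth {n : ℕ} (f : R2 n → R2 n) : Prop := ContDiff ℝ ∞ f

/-- the derivative of `f` at `z` in the direction `u` -/
def der {n : ℕ} (f : R2 n → R2 n) (z u : R2 n) : R2 n := fderiv ℝ f z u

/-- the compactly supported symplectomorphisms of `ℝ^{2n}` -/
structure SympCt (n : ℕ) where
  /-- the underlying bijection of `ℝ^{2n}` -/
  map : R2 n ≃ R2 n
  smooth' : IsSmooth map
  smooth_symm' : IsSmooth map.symm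
  symplectic' : ∀ z u v, omega (der map z u) (der map z v) = omega u v
  compactSupport : ∃ K : Set (R2 n), IsCompact K ∧ ∀ z, z ∉ K → map z = z

/-- the compactly supported symplectomorphisms which are the identity outside `K` -/
def SupportedIn {n : ℕ} (K : Set (R2 n)) : Type := {φ : SympCt n // ∀ z, z ∉ K → φ.map z = z}

/-- the space of continuous `k`-linear maps from `(ℝ^{2n})^k` to `ℝ^{2n}` -/
abbrev Multi (n k : ℕ) : Type := ContinuousMultilinearMap ℝ (fun _ : Fin k => R2 n) (R2 n)

/-- the `k`-th derivative of `f`, a function on `ℝ^{2n}` with values in the `k`-linear maps -/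
def jet {n : ℕ} (k : ℕ) (f : R2 n → R2 n) : R2 n → Multi n k := iteratedFDeriv ℝ k f

/-- the uniform structure of the operator norm on the `k`-linear maps -/
abbrev uniMulti (n k : ℕ) : UniformSpace (Multi n k) := inferInstance

/-- the topology of uniform convergence on the functions on `ℝ^{2n}` with values in the `k`-linear
maps -/
abbrev topUniform (n k : ℕ) : TopologicalSpace (R2 n → Multi n k) :=
  @UniformFun.topologicalSpace (R2 n) (Multi n k) (uniMulti n k)

/-- the `C^∞` topology on the set of symplectomorphisms supported in `K`: uniform convergence of the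
maps and of all their iterated derivatives -/
instance topSupportedIn {n : ℕ} (K : Set (R2 n)) : TopologicalSpace (SupportedIn K) :=
  ⨅ k : ℕ, TopologicalSpace.induced (fun φ : SupportedIn K => jet k φ.1.map) (topUniform n k)

/-- the direct limit topology on the group of compactly supported symplectomorphisms: a set is open
if and only if for every compact `K` its intersection with the set of symplectomorphisms supported
in `K` is open in the `C^∞` topology -/
instance topSympCt (n : ℕ) : TopologicalSpace (SympCt n) :=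
  ⨆ K : {K : Set (R2 n) // IsCompact K},
    TopologicalSpace.coinduced (fun φ : SupportedIn K.1 => φ.1) inferInstance

/-! ### Proof -/

theorem SympCt.smooth {n : ℕ} (φ : SympCt n) : ContDiff ℝ ∞ φ.map := φ.smooth'

theorem SympCt.smooth_symm {n : ℕ} (φ : SympCt n) : ContDiff ℝ ∞ φ.map.symm := φ.smooth_symm'

theorem SympCt.symplectic {n : ℕ} (φ : SympCt n) (z u v : R2 n) :
    omega (fderiv ℝ φ.map z u) (fderiv ℝ φ.map z v) = omega u v := φ.symplectic' z u v

section Smooth

variable {E F : Type*} [NormedAddCommGroup E] [NormedSpace ℝ E] [NormedAddCommGroup F]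
  [NormedSpace ℝ F]

theorem contDiff_iter (f : ℝ → E → F) (hf : ContDiff ℝ ∞ (fun p : ℝ × E => f p.1 p.2)) (k : ℕ) :
    ContDiff ℝ ∞ (fun p : ℝ × E => iteratedFDeriv ℝ k (f p.1) p.2) := by
  induction k with
  | zero =>
    have : (fun p : ℝ × E => iteratedFDeriv ℝ 0 (f p.1) p.2) =
        (continuousMultilinearCurryFin0 ℝ E F).symm ∘ (fun p : ℝ × E => f p.1 p.2) := by
      ext1 p
      rw [iteratedFDeriv_zero_eq_comp]; rfl
    rw [this]
    exact (continuousMultilinearCurryFin0 ℝ E F).symm.contDiff.comp hf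
  | succ k ih =>
    have : (fun p : ℝ × E => iteratedFDeriv ℝ (k + 1) (f p.1) p.2) =
        (continuousMultilinearCurryLeftEquiv ℝ (fun _ : Fin (k + 1) => E) F).symm ∘
          (fun p : ℝ × E => fderiv ℝ (iteratedFDeriv ℝ k (f p.1)) p.2) := by
      ext1 p
      rw [iteratedFDeriv_succ_eq_comp_left]; rfl
    rw [this]
    refine ContDiff.comp (g := (continuousMultilinearCurryLeftEquiv ℝ
      (fun _ : Fin (k + 1) => E) F).symm) (LinearIsometryEquiv.contDiff _) ?_
    refine ContDiff.fderiv (f := fun (p : ℝ × E) (w : E) => iteratedFDeriv ℝ k (f p.1) w)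
      (m := ∞) ?_ contDiff_snd (by simp)
    exact ih.comp ((contDiff_fst.comp contDiff_fst).prodMk contDiff_snd)

end Smooth

variable {n : ℕ}

theorem near_family {X Y Z : Type*} [TopologicalSpace X] [TopologicalSpace Y] [PseudoMetricSpace Z]
    (F : X → Y → Z) (hF : Continuous (fun p : X × Y => F p.1 p.2)) (x₀ : X) (y : Y) {ε : ℝ}
    (hε : 0 < ε) : ∀ᶠ p : X × Y in 𝓝 (x₀, y), dist (F x₀ p.2) (F p.1 p.2) < ε := by
  have hcont : Continuous (fun p : X × Y => dist (F x₀ p.2) (F p.1 p.2)) :=
    (hF.comp (continuous_const.prodMk continuous_snd)).dist hF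
  have h0 : dist (F x₀ y) (F x₀ y) < ε := by
    rw [dist_self]; exact hε
  have h1 : Tendsto (fun p : X × Y => dist (F x₀ p.2) (F p.1 p.2)) (𝓝 (x₀, y))
      (𝓝 (dist (F x₀ y) (F x₀ y))) := hcont.tendsto (x₀, y)
  exact h1.eventually_lt_const h0

theorem continuous_family {K : Set (R2 n)} (hK : IsCompact K) (Φ : ℝ → SupportedIn K)
    (h : ContDiff ℝ ∞ (fun p : ℝ × R2 n => (Φ p.1).1.map p.2)) : Continuous Φ := by
  refine continuous_iInf_rng.2 fun k => continuous_induced_rng.2 ?_
  change Continuous (fun t => UniformFun.ofFun (iteratedFDeriv ℝ k (Φ t).1.map))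
  rw [continuous_iff_continuousAt]
  intro t₀
  refine UniformFun.tendsto_iff_tendstoUniformly.2 ?_
  rw [Metric.tendstoUniformly_iff]
  intro ε hε
  have hc : Continuous (fun p : ℝ × R2 n => iteratedFDeriv ℝ k (Φ p.1).1.map p.2) :=
    (contDiff_iter (fun t => (Φ t).1.map) h k).continuous
  have h1 : ∀ᶠ t in 𝓝 t₀, ∀ z ∈ K, dist (iteratedFDeriv ℝ k (Φ t₀).1.map z)
      (iteratedFDeriv ℝ k (Φ t).1.map z) < ε := by
    refine hK.eventually_forall_of_forall_eventually fun z _ => ?_
    exact near_family (fun t z => iteratedFDeriv ℝ k (Φ t).1.map z) hc t₀ z hε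
  filter_upwards [h1] with t ht z
  by_cases hz : z ∈ K
  · exact ht z hz
  · have hev : ∀ s : ℝ, ((Φ s).1.map : R2 n → R2 n) =ᶠ[𝓝 z] id := fun s => by
      filter_upwards [hK.isClosed.isOpen_compl.mem_nhds hz] with w hw
      exact (Φ s).2 w hw
    change dist (iteratedFDeriv ℝ k (Φ t₀).1.map z) (iteratedFDeriv ℝ k (Φ t).1.map z) < ε
    rw [(Filter.EventuallyEq.iteratedFDeriv ℝ (hev t₀) k).eq_of_nhds,
      (Filter.EventuallyEq.iteratedFDeriv ℝ (hev t) k).eq_of_nhds, dist_self]
    exact hε

theorem continuous_incl {K : Set (R2 n)} (hK : IsCompact K) :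
    Continuous (fun φ : SupportedIn K => φ.1) := by
  rw [continuous_iff_coinduced_le]
  exact le_iSup (fun K : {K : Set (R2 n) // IsCompact K} =>
    TopologicalSpace.coinduced (fun φ : SupportedIn K.1 => φ.1) inferInstance) ⟨K, hK⟩

theorem joined_family {K : Set (R2 n)} (hK : IsCompact K) (Φ : ℝ → SupportedIn K)
    (h : ContDiff ℝ ∞ (fun p : ℝ × R2 n => (Φ p.1).1.map p.2)) : Joined (Φ 0).1 (Φ 1).1 :=
  ⟨{ toFun := fun t => (Φ t).1
     continuous_toFun := (continuous_incl hK).comp ((continuous_family hK Φ h).comp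
      continuous_subtype_val)
     source' := rfl
     target' := rfl }⟩

theorem fderiv_symm_apply (φ : SympCt n) (z u : R2 n) :
    fderiv ℝ φ.map.symm (φ.map z) (fderiv ℝ φ.map z u) = u := by
  have h1 : fderiv ℝ (φ.map.symm ∘ φ.map) z = (fderiv ℝ φ.map.symm (φ.map z)).comp
      (fderiv ℝ φ.map z) :=
    fderiv_comp z ((φ.smooth_symm.differentiable (by simp)) _) ((φ.smooth.differentiable (by simp)) _)
  have h2 : (φ.map.symm ∘ φ.map : R2 n → R2 n) = id := by ext1 w; simp
  rw [h2, fderiv_id] at h1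
  have h3 := congrArg (fun L : R2 n →L[ℝ] R2 n => L u) h1
  simpa using h3.symm

theorem fderiv_apply_symm (φ : SympCt n) (z u : R2 n) :
    fderiv ℝ φ.map (φ.map.symm z) (fderiv ℝ φ.map.symm z u) = u := by
  have h1 : fderiv ℝ (φ.map ∘ φ.map.symm) z = (fderiv ℝ φ.map (φ.map.symm z)).comp
      (fderiv ℝ φ.map.symm z) :=
    fderiv_comp z ((φ.smooth.differentiable (by simp)) _) ((φ.smooth_symm.differentiable (by simp)) _)
  have h2 : (φ.map ∘ φ.map.symm : R2 n → R2 n) = id := by ext1 w; simp
  rw [h2, fderiv_id] at h1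
  have h3 := congrArg (fun L : R2 n →L[ℝ] R2 n => L u) h1
  simpa using h3.symm

/-- Two symplectomorphisms `φ, ψ` supported in `K` with `‖d (φ⁻¹ ψ) - 1‖ ≤ 1/4` are joined. -/
theorem joined_of_close {K : Set (R2 n)} (hK : IsCompact K) (φ ψ : SupportedIn K)
    (h : ∀ z, ‖fderiv ℝ (ψ.1.map.trans φ.1.map.symm) z - ContinuousLinearMap.id ℝ (R2 n)‖ ≤ 1 / 4) :
    Joined φ.1 ψ.1 := by
  have hsupp : ∀ z, z ∉ K → (ψ.1.map.trans φ.1.map.symm) z = z := fun z hz => by
    rw [Equiv.trans_apply, ψ.2 z hz, Equiv.symm_apply_eq, φ.2 z hz]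
  have hsymm : ∀ z u v, omega (fderiv ℝ φ.1.map.symm z u) (fderiv ℝ φ.1.map.symm z v) =
      omega u v := fun z u v => by
    have := φ.1.symplectic (φ.1.map.symm z) (fderiv ℝ φ.1.map.symm z u)
      (fderiv ℝ φ.1.map.symm z v)
    rw [fderiv_apply_symm, fderiv_apply_symm] at this
    exact this.symm
  obtain ⟨Φ, h1, h2, h3, h4, h5, h6⟩ := Pool.Agent.Q130.SC.gen_isotopy K
    (ψ.1.map.trans φ.1.map.symm) (φ.1.smooth_symm.comp ψ.1.smooth) (fun z u v => by
      have e : fderiv ℝ (ψ.1.map.trans φ.1.map.symm) z =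
          (fderiv ℝ φ.1.map.symm (ψ.1.map z)).comp (fderiv ℝ ψ.1.map z) :=
        fderiv_comp z ((φ.1.smooth_symm.differentiable (by simp)) _)
          ((ψ.1.smooth.differentiable (by simp)) _)
      rw [e]
      change omega (fderiv ℝ φ.1.map.symm (ψ.1.map z) (fderiv ℝ ψ.1.map z u))
        (fderiv ℝ φ.1.map.symm (ψ.1.map z) (fderiv ℝ ψ.1.map z v)) = omega u v
      rw [hsymm, ψ.1.symplectic]) hsupp h
  have h7 : ∀ t, ContDiff ℝ ∞ (Φ t) := fun t =>
    h1.comp ((contDiff_const (c := t)).prodMk contDiff_id)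
  have h8 : ∀ t, ContDiff ℝ ∞ (Φ t).symm := fun t =>
    h2.comp ((contDiff_const (c := t)).prodMk contDiff_id)
  have hoff : ∀ t z, z ∉ K → ((Φ t).trans φ.1.map) z = z := fun t z hz => by
    rw [Equiv.trans_apply, h5 t z hz, φ.2 z hz]
  set Ψ : ℝ → SupportedIn K := fun t =>
    ⟨{ map := (Φ t).trans φ.1.map
       smooth' := φ.1.smooth.comp (h7 t)
       smooth_symm' := (h8 t).comp φ.1.smooth_symm
       symplectic' := fun z u v => by
        change omega (fderiv ℝ ((Φ t).trans φ.1.map) z u)
          (fderiv ℝ ((Φ t).trans φ.1.map) z v) = omega u v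
        have e : fderiv ℝ ((Φ t).trans φ.1.map) z =
            (fderiv ℝ φ.1.map (Φ t z)).comp (fderiv ℝ (Φ t) z) :=
          fderiv_comp z ((φ.1.smooth.differentiable (by simp)) _)
            (((h7 t).differentiable (by simp)) _)
        rw [e]
        change omega (fderiv ℝ φ.1.map (Φ t z) (fderiv ℝ (Φ t) z u))
          (fderiv ℝ φ.1.map (Φ t z) (fderiv ℝ (Φ t) z v)) = omega u v
        rw [φ.1.symplectic]
        exact h6 t z u v
       compactSupport := ⟨K, hK, hoff t⟩ }, hoff t⟩ with hΨ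
  have hj := joined_family hK Ψ (by
    have : (fun p : ℝ × R2 n => (Ψ p.1).1.map p.2) =
      φ.1.map ∘ (fun p : ℝ × R2 n => Φ p.1 p.2) := rfl
    rw [this]
    exact φ.1.smooth.comp h1)
  have e0 : (Ψ 0).1 = φ.1 := by
    have : (Ψ 0).1.map = φ.1.map := by
      ext1 z
      change φ.1.map (Φ 0 z) = φ.1.map z
      rw [h3]
    cases h : (Ψ 0).1
    cases h' : φ.1
    simp only [h, h'] at this
    subst this
    rfl
  have e1 : (Ψ 1).1 = ψ.1 := by
    have : (Ψ 1).1.map = ψ.1.map := by
      ext1 z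
      change φ.1.map (Φ 1 z) = ψ.1.map z
      rw [h4]
      simp
    cases h : (Ψ 1).1
    cases h' : ψ.1
    simp only [h, h'] at this
    subst this
    rfl
  rwa [e0, e1] at hj

/-- the derivative of a map supported in a compact set is bounded -/
theorem fderiv_bounded (φ : SympCt n) : ∃ C : ℝ, 0 < C ∧ ∀ z, ‖fderiv ℝ φ.map z‖ ≤ C := by
  obtain ⟨K, hK, h⟩ := φ.compactSupport
  have hc : Continuous (fun z => fderiv ℝ φ.map z) := φ.smooth.continuous_fderiv (by simp)
  obtain ⟨C, hC⟩ := hK.exists_bound_of_continuousOn hc.continuousOn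
  refine ⟨max C 1, by positivity, fun z => ?_⟩
  by_cases hz : z ∈ K
  · exact (hC z hz).trans (le_max_left _ _)
  · have hev : (φ.map : R2 n → R2 n) =ᶠ[𝓝 z] id := by
      filter_upwards [hK.isClosed.isOpen_compl.mem_nhds hz] with w hw
      exact h w hw
    rw [hev.fderiv_eq, fderiv_id]
    exact ContinuousLinearMap.norm_id_le.trans (le_max_right _ _)

/-- the inverse of a compactly supported symplectomorphism -/
def inv (φ : SympCt n) : SympCt n where
  map := φ.map.symm
  smooth' := φ.smooth_symm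
  smooth_symm' := φ.smooth
  symplectic' := fun z u v => by
    have := φ.symplectic (φ.map.symm z) (fderiv ℝ φ.map.symm z u)
      (fderiv ℝ φ.map.symm z v)
    rw [fderiv_apply_symm, fderiv_apply_symm] at this
    exact this.symm
  compactSupport := by
    obtain ⟨K, hK, h⟩ := φ.compactSupport
    refine ⟨K, hK, fun z hz => ?_⟩
    rw [Equiv.symm_apply_eq, h z hz]

/-- the derivative of a map supported in a compact set is uniformly continuous -/
theorem fderiv_uniform (φ : SympCt n) {ε : ℝ} (hε : 0 < ε) :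
    ∃ d : ℝ, 0 < d ∧ ∀ z w, dist z w < d → ‖fderiv ℝ φ.map z - fderiv ℝ φ.map w‖ < ε := by
  obtain ⟨K, hK, h⟩ := φ.compactSupport
  have hc : Continuous (fun z => fderiv ℝ φ.map z - ContinuousLinearMap.id ℝ (R2 n)) :=
    (φ.smooth.continuous_fderiv (by simp)).sub continuous_const
  have hs : HasCompactSupport (fun z => fderiv ℝ φ.map z - ContinuousLinearMap.id ℝ (R2 n)) := by
    refine HasCompactSupport.intro hK fun z hz => ?_
    have hev : (φ.map : R2 n → R2 n) =ᶠ[𝓝 z] id := by
      filter_upwards [hK.isClosed.isOpen_compl.mem_nhds hz] with w hw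
      exact h w hw
    rw [hev.fderiv_eq, fderiv_id, sub_self]
  have hu := hs.uniformContinuous_of_continuous hc
  rw [Metric.uniformContinuous_iff] at hu
  obtain ⟨d, hd, h1⟩ := hu ε hε
  refine ⟨d, hd, fun z w hzw => ?_⟩
  have := h1 hzw
  rwa [dist_eq_norm, sub_sub_sub_cancel_right] at this

end Pool.Agent.Q130.SC.Sym
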